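import Mathlib

/-!
# PWL: averages over cosets of subgroups of a finite group
-/

namespace Pool.Agent.PWL

open Classical in
/-- The average of `F` over the coset `γ G`. -/
noncomputable def avg {Γ : Type*} [Group Γ] [Fintype Γ] (G : Subgroup Γ) (F : Γ → ℝ) (γ : Γ) : ℝ :=
  (∑ δ ∈ Finset.univ.filter (fun δ => δ ∈ G), F (γ * δ)) / (Nat.card G : ℝ)

variable {Γ : Type*} [Group Γ] [Fintype Γ]

private theorem card_pos' (G : Subgroup Γ) : (0 : ℝ) < (Nat.card G : ℝ) := by
  have : 0 < Nat.card G := Nat.card_pos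
  exact_mod_cast this

open Classical in
private theorem card_eq' (G : Subgroup Γ) :
    ((Finset.univ.filter (fun δ : Γ => δ ∈ G)).card : ℝ) = (Nat.card G : ℝ) := by
  rw [Nat.card_eq_fintype_card, Fintype.card_subtype]

theorem avg_const (G : Subgroup Γ) (c : ℝ) (γ : Γ) : avg G (fun _ => c) γ = c := by
  unfold avg
  rw [Finset.sum_const, nsmul_eq_mul, card_eq', mul_comm, mul_div_assoc,
    div_self (card_pos' G).ne', mul_one]

theorem avg_add (G : Subgroup Γ) (F F' : Γ → ℝ) (γ : Γ) :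
    avg G (fun x => F x + F' x) γ = avg G F γ + avg G F' γ := by
  unfold avg
  rw [Finset.sum_add_distrib, add_div]

theorem avg_sub (G : Subgroup Γ) (F F' : Γ → ℝ) (γ : Γ) :
    avg G (fun x => F x - F' x) γ = avg G F γ - avg G F' γ := by
  unfold avg
  rw [Finset.sum_sub_distrib, sub_div]

theorem avg_mul (G : Subgroup Γ) (c : ℝ) (F : Γ → ℝ) (γ : Γ) :
    avg G (fun x => c * F x) γ = c * avg G F γ := by
  unfold avg
  rw [← Finset.mul_sum, mul_div_assoc]

theorem avg_sum {ι : Type*} (s : Finset ι) (G : Subgroup Γ) (F : ι → Γ → ℝ) (γ : Γ) :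
    avg G (fun x => ∑ i ∈ s, F i x) γ = ∑ i ∈ s, avg G (F i) γ := by
  unfold avg
  rw [Finset.sum_comm, Finset.sum_div]

/-- Monotone; only the values on the coset matter. -/
theorem avg_le (G : Subgroup Γ) (F F' : Γ → ℝ) (γ : Γ) (h : ∀ δ ∈ G, F (γ * δ) ≤ F' (γ * δ)) :
    avg G F γ ≤ avg G F' γ := by
  classical
  unfold avg
  refine div_le_div_of_nonneg_right ?_ (card_pos' G).le
  exact Finset.sum_le_sum fun δ hδ => h δ (Finset.mem_filter.1 hδ).2

theorem avg_congr (G : Subgroup Γ) (F F' : Γ → ℝ) (γ : Γ) (h : ∀ δ ∈ G, F (γ * δ) = F' (γ * δ)) :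
    avg G F γ = avg G F' γ :=
  le_antisymm (avg_le G F F' γ fun δ hδ => (h δ hδ).le) (avg_le G F' F γ fun δ hδ => (h δ hδ).ge)

theorem avg_nonneg (G : Subgroup Γ) (F : Γ → ℝ) (γ : Γ) (h : ∀ δ ∈ G, 0 ≤ F (γ * δ)) :
    0 ≤ avg G F γ := by
  rw [← avg_const G 0 γ]
  exact avg_le G _ F γ h

/-- The average is constant on cosets. -/
theorem avg_coset (G : Subgroup Γ) (F : Γ → ℝ) (γ δ : Γ) (h : δ ∈ G) :
    avg G F (γ * δ) = avg G F γ := by
  classical
  unfold avg
  congr 1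
  refine Finset.sum_bij (fun ε _ => δ * ε) ?_ ?_ ?_ ?_
  · intro ε hε
    exact Finset.mem_filter.2 ⟨Finset.mem_univ _, G.mul_mem h (Finset.mem_filter.1 hε).2⟩
  · intro ε _ ε' _ he
    exact mul_left_cancel he
  · intro ε hε
    refine ⟨δ⁻¹ * ε, Finset.mem_filter.2 ⟨Finset.mem_univ _,
      G.mul_mem (G.inv_mem h) (Finset.mem_filter.1 hε).2⟩, ?_⟩
    rw [mul_inv_cancel_left]
  · intro ε _
    rw [mul_assoc]

theorem avg_shift (G : Subgroup Γ) (F : Γ → ℝ) (γ τ : Γ) (h : τ ∈ G) :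
    avg G (fun x => F (x * τ)) γ = avg G F γ := by
  classical
  unfold avg
  congr 1
  refine Finset.sum_bij (fun ε _ => ε * τ) ?_ ?_ ?_ ?_
  · intro ε hε
    exact Finset.mem_filter.2 ⟨Finset.mem_univ _, G.mul_mem (Finset.mem_filter.1 hε).2 h⟩
  · intro ε _ ε' _ he
    exact mul_right_cancel he
  · intro ε hε
    refine ⟨ε * τ⁻¹, Finset.mem_filter.2 ⟨Finset.mem_univ _,
      G.mul_mem (Finset.mem_filter.1 hε).2 (G.inv_mem h)⟩, ?_⟩
    rw [inv_mul_cancel_right]
  · intro ε _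
    show F (γ * ε * τ) = F (γ * (ε * τ))
    rw [mul_assoc]

/-- The tower property. -/
theorem avg_avg (G G' : Subgroup Γ) (hG : G ≤ G') (F : Γ → ℝ) (γ : Γ) :
    avg G' (fun x => avg G F x) γ = avg G' F γ := by
  classical
  have e1 : (fun x => avg G F x) = fun x => (1 / (Nat.card G : ℝ)) *
      ∑ ε ∈ Finset.univ.filter (fun ε => ε ∈ G), F (x * ε) := by
    funext x
    unfold avg
    rw [one_div, div_eq_inv_mul]
  rw [e1, avg_mul, avg_sum, Finset.sum_congr rfl fun ε hε =>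
    avg_shift G' F γ ε (hG (Finset.mem_filter.1 hε).2), Finset.sum_const, nsmul_eq_mul, card_eq',
    ← mul_assoc, one_div, inv_mul_cancel₀ (card_pos' G).ne', one_mul]

/-- Cauchy-Schwarz. -/
theorem avg_sq (G : Subgroup Γ) (F : Γ → ℝ) (γ : Γ) :
    (avg G F γ) ^ 2 ≤ avg G (fun x => F x ^ 2) γ := by
  classical
  unfold avg
  have h1 := sq_sum_le_card_mul_sum_sq (s := Finset.univ.filter (fun δ : Γ => δ ∈ G))
    (f := fun δ => F (γ * δ))
  rw [card_eq'] at h1
  have h0 := card_pos' G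
  rw [div_pow, div_le_div_iff₀ (by positivity) h0]
  calc (∑ δ ∈ Finset.univ.filter (fun δ : Γ => δ ∈ G), F (γ * δ)) ^ 2 * (Nat.card G : ℝ)
      ≤ ((Nat.card G : ℝ) * ∑ δ ∈ Finset.univ.filter (fun δ : Γ => δ ∈ G), F (γ * δ) ^ 2) *
        (Nat.card G : ℝ) := mul_le_mul_of_nonneg_right h1 h0.le
    _ = _ := by ring

/-- If the average of `F` is positive then `F` is positive somewhere on the coset. -/
theorem exists_of_avg_pos (G : Subgroup Γ) (F : Γ → ℝ) (γ : Γ) (h : 0 < avg G F γ) :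
    ∃ δ ∈ G, 0 < F (γ * δ) := by
  by_contra hcon
  push Not at hcon
  have h1 := avg_le G F (fun _ => 0) γ hcon
  rw [avg_const] at h1
  linarith

/-- The average over the whole group does not depend on the point. -/
theorem avg_top (F : Γ → ℝ) (γ γ' : Γ) : avg (⊤ : Subgroup Γ) F γ = avg ⊤ F γ' := by
  have h := avg_coset (⊤ : Subgroup Γ) F γ (γ⁻¹ * γ') (Subgroup.mem_top _)
  rw [mul_inv_cancel_left] at h
  exact h.symm

/-- The law of the value of `a` under the average over `γ G`. -/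
noncomputable def dist {Q : Type*} (G : Subgroup Γ) (a : Γ → Q) (γ : Γ) (h : Q) : ℝ :=
  open Classical in avg G (fun x => if a x = h then 1 else 0) γ

/-- Entropy. -/
noncomputable def ent {Q : Type*} [Fintype Q] (p : Q → ℝ) : ℝ := ∑ h, Real.negMulLog (p h)

/-- `‖p * δ_h - p‖₁`. -/
noncomputable def dev {Q : Type*} [Fintype Q] [Group Q] (p : Q → ℝ) (h : Q) : ℝ :=
  ∑ x, |p (x * h⁻¹) - p x|

/-- Average over a function of `a`. -/
theorem avg_comp {Q : Type*} [Fintype Q] (G : Subgroup Γ) (a : Γ → Q) (f : Q → ℝ) (γ : Γ) :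
    avg G (fun x => f (a x)) γ = ∑ h, dist G a γ h * f h := by
  classical
  have e1 : (fun x => f (a x)) = fun x => ∑ h, f h * (if a x = h then (1 : ℝ) else 0) := by
    funext x
    rw [Finset.sum_eq_single (a x)]
    · simp
    · intro h _ hh
      rw [if_neg (Ne.symm hh), mul_zero]
    · intro h
      exact absurd (Finset.mem_univ _) h
  rw [e1, avg_sum]
  refine Finset.sum_congr rfl fun h _ => ?_
  rw [avg_mul, mul_comm]
  unfold dist
  congr 1

theorem dist_nonneg {Q : Type*} (G : Subgroup Γ) (a : Γ → Q) (γ : Γ) (h : Q) :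
    0 ≤ dist G a γ h := by
  unfold dist
  refine avg_nonneg G _ γ fun δ _ => ?_
  split_ifs
  · exact zero_le_one
  · exact le_rfl

theorem dist_sum {Q : Type*} [Fintype Q] (G : Subgroup Γ) (a : Γ → Q) (γ : Γ) :
    ∑ h, dist G a γ h = 1 := by
  have h := avg_comp G a (fun _ => 1) γ
  rw [avg_const] at h
  rw [h]
  exact Finset.sum_congr rfl fun _ _ => (mul_one _).symm

/-- A value of positive probability is a value on the coset. -/
theorem exists_of_dist {Q : Type*} (G : Subgroup Γ) (a : Γ → Q) (γ : Γ) (h : Q)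
    (hh : dist G a γ h ≠ 0) : ∃ δ ∈ G, a (γ * δ) = h := by
  by_contra hcon
  push Not at hcon
  apply hh
  unfold dist
  rw [avg_congr G _ (fun _ => 0) γ fun δ hδ => ?_, avg_const]
  rw [if_neg (hcon δ hδ)]

end Pool.Agent.PWL
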