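import Pool.Agent.PWL.Iter

/-!
# PWL: growth of the reachable sets
-/

namespace Pool.Agent.PWL

open Classical in
/-- The points reached from `y` by the nonempty increasing products of `f q, ..., f (q + n)`. -/
noncomputable def rs {d : ℕ} (f : ℕ → Equiv.Perm (Fin d)) : ℕ → ℕ → Fin d → Finset (Fin d)
  | 0, q, y => {f q y}
  | n + 1, q, y => rs f n (q + 1) y ∪ (rs f n (q + 1) y).image (f q)


private theorem exp_ind_sum {d : ℕ} (Y : Finset (Fin d)) :
    ∑ z : Fin d, (if z ∈ Y then (1 : ℝ) else 0) = Y.card := by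
  rw [Finset.sum_ite_mem, Finset.univ_inter, Finset.sum_const, nsmul_eq_mul, mul_one]

private theorem exp_sum {d : ℕ} (Y : Finset (Fin d)) :
    ∑ z : Fin d, ((if z ∈ Y then (1 : ℝ) else 0) - (Y.card : ℝ) / d) = 0 := by
  rw [Finset.sum_sub_distrib, exp_ind_sum, Finset.sum_const, Finset.card_univ, Fintype.card_fin,
    nsmul_eq_mul]
  rcases Nat.eq_zero_or_pos d with h0 | h0
  · subst h0
    have : Y = ∅ := Finset.eq_empty_of_forall_notMem fun z => z.elim0
    rw [this]
    simp
  · have : (d : ℝ) ≠ 0 := by positivity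
    field_simp
    ring

private theorem exp_nsq {d : ℕ} (Y : Finset (Fin d)) :
    nsq (fun z : Fin d => (if z ∈ Y then (1 : ℝ) else 0) - (Y.card : ℝ) / d) =
      (Y.card : ℝ) * (d - Y.card) / d := by
  unfold nsq
  have h1 : ∀ z : Fin d, ((if z ∈ Y then (1 : ℝ) else 0) - (Y.card : ℝ) / d) ^ 2 =
      (1 - 2 * ((Y.card : ℝ) / d)) * (if z ∈ Y then (1 : ℝ) else 0) + ((Y.card : ℝ) / d) ^ 2 := by
    intro z
    by_cases hz : z ∈ Y
    · rw [if_pos hz]
      ring
    · rw [if_neg hz]
      ring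
  rw [Finset.sum_congr rfl fun z _ => h1 z, Finset.sum_add_distrib, ← Finset.mul_sum,
    exp_ind_sum, Finset.sum_const, Finset.card_univ, Fintype.card_fin, nsmul_eq_mul]
  rcases Nat.eq_zero_or_pos d with h0 | h0
  · subst h0
    have : Y = ∅ := Finset.eq_empty_of_forall_notMem fun z => z.elim0
    rw [this]
    simp
  · have : (d : ℝ) ≠ 0 := by positivity
    field_simp
    ring

private theorem exp_disp {d : ℕ} (Y : Finset (Fin d)) (h : Equiv.Perm (Fin d)) (c : ℝ) :
    nsq (fun z => act h (fun z : Fin d => (if z ∈ Y then (1 : ℝ) else 0) - c) z -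
      ((if z ∈ Y then (1 : ℝ) else 0) - c)) = 2 * (((Y ∪ Y.image h).card : ℝ) - Y.card) := by
  unfold nsq act
  have h1 : ∀ z : Fin d, (((if h⁻¹ z ∈ Y then (1 : ℝ) else 0) - c) -
      ((if z ∈ Y then (1 : ℝ) else 0) - c)) ^ 2 =
      2 * (if z ∈ Y ∪ Y.image h then (1 : ℝ) else 0) - (if z ∈ Y.image h then (1 : ℝ) else 0) -
        (if z ∈ Y then (1 : ℝ) else 0) := by
    intro z
    have hz : z ∈ Y.image h ↔ h⁻¹ z ∈ Y := by
      rw [Finset.mem_image]
      constructor
      · rintro ⟨y, hy, rfl⟩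
        have e : h⁻¹ (h y) = y := h.symm_apply_apply y
        rw [e]
        exact hy
      · intro hy
        exact ⟨h⁻¹ z, hy, h.apply_symm_apply z⟩
    by_cases hA : h⁻¹ z ∈ Y
    · by_cases hB : z ∈ Y
      · rw [if_pos hA, if_pos hB, if_pos (hz.2 hA), if_pos (Finset.mem_union_left _ hB)]
        ring
      · rw [if_pos hA, if_neg hB, if_pos (hz.2 hA), if_pos (Finset.mem_union_right _ (hz.2 hA))]
        ring
    · have hA' : z ∉ Y.image h := fun hh => hA (hz.1 hh)
      by_cases hB : z ∈ Y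
      · rw [if_neg hA, if_pos hB, if_neg hA', if_pos (Finset.mem_union_left _ hB)]
        ring
      · rw [if_neg hA, if_neg hB, if_neg hA', if_neg (fun hh => (Finset.mem_union.1 hh).elim hB hA')]
        ring
  rw [Finset.sum_congr rfl fun z _ => h1 z, Finset.sum_sub_distrib, Finset.sum_sub_distrib,
    ← Finset.mul_sum, exp_ind_sum, exp_ind_sum, exp_ind_sum,
    Finset.card_image_of_injective Y h.injective]
  ring

variable {Γ : Type*} [Group Γ] [Fintype Γ] {d m : ℕ}

private theorem rs_zero {d : ℕ} (f : ℕ → Equiv.Perm (Fin d)) (q : ℕ) (y : Fin d) :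
    rs f 0 q y = {f q y} := rfl

private theorem rs_succ {d : ℕ} (f : ℕ → Equiv.Perm (Fin d)) (n q : ℕ) (y : Fin d) :
    rs f (n + 1) q y = rs f n (q + 1) y ∪ (rs f n (q + 1) y).image (f q) := rfl

private theorem rs_card_pos {d : ℕ} (f : ℕ → Equiv.Perm (Fin d)) (n : ℕ) :
    ∀ (q : ℕ) (y : Fin d), 0 < (rs f n q y).card := by
  induction n with
  | zero =>
    intro q y
    rw [rs_zero, Finset.card_singleton]
    exact one_pos
  | succ n ih =>
    intro q y
    rw [rs_succ]
    exact (ih (q + 1) y).trans_le (Finset.card_le_card Finset.subset_union_left)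

/-- Reached points are values of curves. -/
theorem Win.rs_sound (W : Win Γ (Equiv.Perm (Fin d)) m) (n q : ℕ) (hm : q + n + 1 ≤ m) (x : Γ)
    (y z : Fin d) (h : z ∈ rs (fun j => W.a j x) n q y) :
    ∃ δ ∈ W.G q (q + n + 1), W.a q (x * δ) y = z := by
  induction n generalizing q z with
  | zero =>
    rw [rs_zero, Finset.mem_singleton] at h
    refine ⟨1, Subgroup.one_mem _, ?_⟩
    rw [mul_one]
    exact h.symm
  | succ n ih =>
    rw [rs_succ, Finset.mem_union, Finset.mem_image] at h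
    rcases h with h | ⟨z', h, hz⟩
    · obtain ⟨δ, hδ, e⟩ := ih (q + 1) (by omega) z h
      obtain ⟨τ, hτ, e'⟩ := W.bring q (q + 1) (by omega) (by omega)
      refine ⟨δ * τ, Subgroup.mul_mem _ (W.mono (q + 1) (q + 1 + n + 1) q (q + (n + 1) + 1)
        (by omega) (by omega) (by omega) hδ) (W.mono q (q + 1 + 1) q (q + (n + 1) + 1)
        (by omega) (by omega) (by omega) hτ), ?_⟩
      rw [← mul_assoc, e']
      exact e
    · obtain ⟨δ, hδ, e⟩ := ih (q + 1) (by omega) z' h
      obtain ⟨τ, hτ, e'⟩ := W.mv1 q (q + 1) (by omega) (by omega)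
      refine ⟨δ * τ, Subgroup.mul_mem _ (W.mono (q + 1) (q + 1 + n + 1) q (q + (n + 1) + 1)
        (by omega) (by omega) (by omega) hδ) (W.mono q (q + 1 + 1) q (q + (n + 1) + 1)
        (by omega) (by omega) (by omega) hτ), ?_⟩
      rw [← mul_assoc, e', (W.fix (q + 1) (q + 1 + n + 1) q x δ hδ (Or.inl (by omega))).1,
        Equiv.Perm.mul_apply, e]
      exact hz

/-- The reached points depend only on the handles used. -/
theorem Win.rs_fix (W : Win Γ (Equiv.Perm (Fin d)) m) (n q s : ℕ) (hs : s ≤ q) (x δ : Γ)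
    (hδ : δ ∈ W.G 0 s) (y : Fin d) :
    rs (fun j => W.a j (x * δ)) n q y = rs (fun j => W.a j x) n q y := by
  induction n generalizing q with
  | zero =>
    rw [rs_zero, rs_zero, (W.fix 0 s q x δ hδ (Or.inr hs)).1]
  | succ n ih =>
    rw [rs_succ, rs_succ, ih (q + 1) (by omega), (W.fix 0 s q x δ hδ (Or.inr hs)).1]

open Classical in
/-- Expansion: a set grows under a random curve. -/
theorem Win.expand (W : Win Γ (Equiv.Perm (Fin d)) m) (k s : ℕ) (hk : 0 < k) (hd : d ≤ 2 ^ k)
    (hs : 262 * k + 24 ≤ s) (hm : s ≤ m) (γ : Γ) (hT : Tra (W.R 0 s γ)) (Y : Finset (Fin d)) :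
    (Y.card : ℝ) * (d - Y.card) / (800 * d) ≤
      avg (W.G 0 s) (fun x => (((Y ∪ Y.image (W.a (s - 1) x)).card : ℝ) - Y.card)) γ := by
  have h1 := W.gapG k s hk hd hs hm
    (fun z : Fin d => (if z ∈ Y then (1 : ℝ) else 0) - (Y.card : ℝ) / d) (exp_sum Y) γ hT
  rw [exp_nsq, ← W.E_eq s (s - 1) (by omega) hm] at h1
  have h2 : avg (W.G 0 s) (fun x => nsq (fun z => act (W.a (s - 1) x)
      (fun z : Fin d => (if z ∈ Y then (1 : ℝ) else 0) - (Y.card : ℝ) / d) z -
        ((if z ∈ Y then (1 : ℝ) else 0) - (Y.card : ℝ) / d))) γ =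
      2 * avg (W.G 0 s) (fun x => (((Y ∪ Y.image (W.a (s - 1) x)).card : ℝ) - Y.card)) γ := by
    rw [← avg_mul]
    exact avg_congr _ _ _ _ fun δ _ => exp_disp Y _ _
  rw [h2] at h1
  have h3 : (Y.card : ℝ) * (d - Y.card) / (800 * d) =
      ((Y.card : ℝ) * (d - Y.card) / d) / 800 := by
    rw [div_div, mul_comm (800 : ℝ)]
  rw [h3, div_le_iff₀ (by norm_num)]
  linarith


private theorem pot_step {a a' d : ℝ} (ha : 0 < a) (h1 : a ≤ a') (h2 : a' ≤ 2 * a) (hd : 0 ≤ d) :
    d / a' ≤ d / a - d / (2 * a ^ 2) * (a' - a) := by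
  have ha' : 0 < a' := ha.trans_le h1
  have e : d / a - d / a' = d * (a' - a) / (a * a') := by
    field_simp
  have h3 : d * (a' - a) / (2 * a ^ 2) ≤ d * (a' - a) / (a * a') := by
    apply div_le_div_of_nonneg_left
    · exact mul_nonneg hd (sub_nonneg.2 h1)
    · positivity
    · nlinarith
  have e2 : d / (2 * a ^ 2) * (a' - a) = d * (a' - a) / (2 * a ^ 2) := by ring
  rw [e2]
  linarith

open Classical in
/-- The potential. -/
theorem Win.pot (W : Win Γ (Equiv.Perm (Fin d)) m) (k n q : ℕ) (hk : 0 < k) (hd : d ≤ 2 ^ k)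
    (hd0 : 0 < d) (hq : 262 * k + 24 ≤ q) (hm : q + n + 1 ≤ m) (y : Fin d) (γ : Γ) :
    avg ⊤ (fun x => if Tra (W.R 0 q x) then
      (d : ℝ) / (rs (fun j => W.a j x) n q y).card - 1 else 0) γ ≤ (1 - 1 / 1600) ^ n * d := by
  have hdr : (0 : ℝ) < d := by exact_mod_cast hd0
  induction n generalizing q with
  | zero =>
    rw [pow_zero, one_mul, ← avg_const ⊤ (d : ℝ) γ]
    refine avg_le _ _ _ _ fun δ _ => ?_
    rw [avg_const]
    split_ifs
    · rw [rs_zero, Finset.card_singleton, Nat.cast_one, div_one]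
      linarith
    · exact hdr.le
  | succ n ih =>
    have hIH := ih (q + 1) (by omega) (by omega)
    have key : avg ⊤ (fun x => if Tra (W.R 0 q x) then
        (d : ℝ) / (rs (fun j => W.a j x) (n + 1) q y).card - 1 else 0) γ ≤
        (1 - 1 / 1600) * avg ⊤ (fun x => if Tra (W.R 0 (q + 1) x) then
          (d : ℝ) / (rs (fun j => W.a j x) n (q + 1) y).card - 1 else 0) γ := by
      rw [← avg_avg (W.G 0 (q + 1)) ⊤ le_top, ← avg_mul]
      refine avg_le _ _ _ _ fun δ _ => ?_
      set x : Γ := γ * δ with hx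
      set Y := rs (fun j => W.a j x) n (q + 1) y with hY
      have hYc : (0 : ℝ) < Y.card := by exact_mod_cast rs_card_pos _ n (q + 1) y
      have hYd : (Y.card : ℝ) ≤ d := by
        have := Finset.card_le_univ Y
        rw [Fintype.card_fin] at this
        exact_mod_cast this
      have hYfix : ∀ ε ∈ W.G 0 (q + 1), rs (fun j => W.a j (x * ε)) n (q + 1) y = Y :=
        fun ε hε => W.rs_fix n (q + 1) (q + 1) le_rfl x ε hε y
      have hR : ∀ ε ∈ W.G 0 (q + 1), W.R 0 (q + 1) (x * ε) = W.R 0 (q + 1) x :=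
        fun ε hε => W.R_inv 0 (q + 1) (by omega) x ε hε
      by_cases hT : Tra (W.R 0 (q + 1) x)
      · rw [if_pos hT]
        have h1 := W.expand k (q + 1) hk hd (by omega) (by omega) x hT Y
        rw [Nat.add_sub_cancel] at h1
        have h2 : avg (W.G 0 (q + 1)) (fun x => if Tra (W.R 0 q x) then
            (d : ℝ) / (rs (fun j => W.a j x) (n + 1) q y).card - 1 else 0) x ≤
            avg (W.G 0 (q + 1)) (fun x => ((d : ℝ) / Y.card - 1) + (- ((d : ℝ) /
              (2 * (Y.card : ℝ) ^ 2))) *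
                (((Y ∪ Y.image (W.a q x)).card : ℝ) - Y.card)) x := by
          refine avg_le _ _ _ _ fun ε hε => ?_
          rw [rs_succ, hYfix ε hε]
          have h3 : (Y.card : ℝ) ≤ ((Y ∪ Y.image (W.a q (x * ε))).card : ℝ) := by
            exact_mod_cast Finset.card_le_card Finset.subset_union_left
          have h4 : ((Y ∪ Y.image (W.a q (x * ε))).card : ℝ) ≤ 2 * Y.card := by
            have h5 := Finset.card_union_le Y (Y.image (W.a q (x * ε)))
            have h6 : (Y.image (W.a q (x * ε))).card ≤ Y.card := Finset.card_image_le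
            have h7 : (Y ∪ Y.image (W.a q (x * ε))).card ≤ 2 * Y.card := by omega
            exact_mod_cast h7
          have h5 := pot_step hYc h3 h4 hdr.le
          have h6 : ((Y ∪ Y.image (W.a q (x * ε))).card : ℝ) ≤ d := by
            have := Finset.card_le_univ (Y ∪ Y.image (W.a q (x * ε)))
            rw [Fintype.card_fin] at this
            exact_mod_cast this
          have h7 : 1 ≤ (d : ℝ) / ((Y ∪ Y.image (W.a q (x * ε))).card : ℝ) := by
            rw [le_div_iff₀ (hYc.trans_le h3), one_mul]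
            exact h6
          split_ifs
          · linarith
          · linarith
        have h3 : avg (W.G 0 (q + 1)) (fun x => ((d : ℝ) / Y.card - 1) + (- ((d : ℝ) /
              (2 * (Y.card : ℝ) ^ 2))) *
                (((Y ∪ Y.image (W.a q x)).card : ℝ) - Y.card)) x =
            ((d : ℝ) / Y.card - 1) + (- ((d : ℝ) / (2 * (Y.card : ℝ) ^ 2))) *
              avg (W.G 0 (q + 1)) (fun x =>
                (((Y ∪ Y.image (W.a q x)).card : ℝ) - Y.card)) x := by
          rw [avg_add, avg_const, avg_mul]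
        have h4 : (d : ℝ) / (2 * (Y.card : ℝ) ^ 2) * ((Y.card : ℝ) * (d - Y.card) / (800 * d)) ≤
            (d : ℝ) / (2 * (Y.card : ℝ) ^ 2) * avg (W.G 0 (q + 1)) (fun x =>
                (((Y ∪ Y.image (W.a q x)).card : ℝ) - Y.card)) x :=
          mul_le_mul_of_nonneg_left h1 (by positivity)
        have h5 : (d : ℝ) / (2 * (Y.card : ℝ) ^ 2) * ((Y.card : ℝ) * (d - Y.card) / (800 * d)) =
            1 / 1600 * ((d : ℝ) / Y.card - 1) := by
          field_simp
          ring
        rw [h3] at h2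
        rw [h5] at h4
        linarith
      · rw [if_neg hT, mul_zero]
        refine (avg_le _ _ (fun _ => (0 : ℝ)) _ fun ε hε => ?_).trans
          (le_of_eq (avg_const _ 0 x))
        rw [if_neg]
        intro hcon
        apply hT
        rw [← hR ε hε]
        exact hcon.mono (W.R_mono le_rfl (by omega) _)
    calc _ ≤ _ := key
      _ ≤ (1 - 1 / 1600) * ((1 - 1 / 1600) ^ n * d) :=
          mul_le_mul_of_nonneg_left hIH (by norm_num)
      _ = _ := by ring

private theorem cov_num (k : ℕ) (hd : d ≤ 2 ^ k) :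
    (d : ℝ) * (d * ((1 - 1 / 1600) ^ (9600 * k) * d)) ≤ (1 / 8 : ℝ) ^ k := by
  have h1 : ((1 : ℝ) - 1 / 1600) ^ 1600 ≤ 1 / 2 := by
    have h2 := Real.one_sub_div_pow_le_exp_neg (n := 1600) (t := 1) (by norm_num)
    have h3 : Real.exp (-1) ≤ 1 / 2 := by
      rw [Real.exp_neg, ← one_div]
      apply one_div_le_one_div_of_le (by norm_num)
      have := Real.add_one_le_exp (1 : ℝ)
      linarith
    push_cast at h2
    exact h2.trans h3
  have h2 : ((1 : ℝ) - 1 / 1600) ^ (9600 * k) ≤ (1 / 64) ^ k := by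
    have e : 9600 * k = 1600 * (6 * k) := by ring
    rw [e, pow_mul]
    calc (((1 : ℝ) - 1 / 1600) ^ 1600) ^ (6 * k) ≤ (1 / 2) ^ (6 * k) :=
          pow_le_pow_left₀ (by positivity) h1 _
      _ = (1 / 64) ^ k := by
          rw [pow_mul]
          norm_num
  have hdr : (d : ℝ) ≤ 2 ^ k := by exact_mod_cast hd
  have hd0 : (0 : ℝ) ≤ d := Nat.cast_nonneg d
  calc (d : ℝ) * (d * ((1 - 1 / 1600) ^ (9600 * k) * d))
      = (d : ℝ) ^ 3 * (1 - 1 / 1600) ^ (9600 * k) := by ring
    _ ≤ (2 ^ k) ^ 3 * (1 / 64) ^ k := by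
        apply mul_le_mul (pow_le_pow_left₀ hd0 hdr 3) h2 (by positivity) (by positivity)
    _ = (1 / 8 : ℝ) ^ k := by
        rw [← pow_mul, mul_comm k 3, pow_mul, ← mul_pow]
        norm_num

private theorem cov_num2 (k q : ℕ) (hd : d ≤ 2 ^ k) (hq : 262 * k + 24 ≤ q) :
    7 ^ q * (d : ℝ) / 8 ^ q ≤ 1 / 16 := by
  have hdr : (d : ℝ) ≤ 2 ^ k := by exact_mod_cast hd
  have e : 7 ^ q * (d : ℝ) / 8 ^ q = (7 / 8) ^ q * d := by
    rw [div_pow]
    ring
  rw [e]
  have h1 : (7 / 8 : ℝ) ^ q ≤ (7 / 8) ^ (6 * k + 24) :=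
    pow_le_pow_of_le_one (by norm_num) (by norm_num) (by omega)
  have h2 : (7 / 8 : ℝ) ^ (6 * k + 24) ≤ (1 / 2) ^ k * (1 / 16) := by
    rw [pow_add, pow_mul]
    apply mul_le_mul _ (by norm_num) (by positivity) (by positivity)
    exact pow_le_pow_left₀ (by positivity) (by norm_num) k
  calc (7 / 8 : ℝ) ^ q * d ≤ ((1 / 2) ^ k * (1 / 16)) * 2 ^ k :=
        mul_le_mul (h1.trans h2) hdr (Nat.cast_nonneg d) (by positivity)
    _ = ((1 / 2) ^ k * 2 ^ k) * (1 / 16) := by ring
    _ = 1 / 16 := by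
        rw [← mul_pow]
        norm_num

open Classical in
/-- A block of length `9600 k + 1` reaches everything with probability at least 13/16. -/
theorem Win.cover (W : Win Γ (Equiv.Perm (Fin d)) m) (k q : ℕ) (hk : 0 < k) (hd : d ≤ 2 ^ k)
    (hd0 : 0 < d) (hq : 262 * k + 24 ≤ q) (hm : q + 9600 * k + 1 ≤ m) (γ : Γ)
    (hT : Tra (W.R 0 m γ)) :
    avg ⊤ (fun x => if ∀ y : Fin d, rs (fun j => W.a j x) (9600 * k) q y = Finset.univ
      then (0 : ℝ) else 1) γ ≤ 3 / 16 := by
  have hdr : (0 : ℝ) < d := by exact_mod_cast hd0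
  have hpt : ∀ x : Γ, (if ∀ y : Fin d, rs (fun j => W.a j x) (9600 * k) q y = Finset.univ
      then (0 : ℝ) else 1) ≤ (if Tra (W.R 0 q x) then (0 : ℝ) else 1) +
        ∑ y : Fin d, (d : ℝ) * (if Tra (W.R 0 q x) then
          (d : ℝ) / (rs (fun j => W.a j x) (9600 * k) q y).card - 1 else 0) := by
    intro x
    have hnn : ∀ y : Fin d, (0 : ℝ) ≤ (d : ℝ) * (if Tra (W.R 0 q x) then
          (d : ℝ) / (rs (fun j => W.a j x) (9600 * k) q y).card - 1 else 0) := by
      intro y
      apply mul_nonneg hdr.le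
      split_ifs
      · have hc : (0 : ℝ) < (rs (fun j => W.a j x) (9600 * k) q y).card := by
          exact_mod_cast rs_card_pos _ _ q y
        have hle : ((rs (fun j => W.a j x) (9600 * k) q y).card : ℝ) ≤ d := by
          have := Finset.card_le_univ (rs (fun j => W.a j x) (9600 * k) q y)
          rw [Fintype.card_fin] at this
          exact_mod_cast this
        rw [sub_nonneg, le_div_iff₀ hc, one_mul]
        exact hle
      · exact le_rfl
    have hs : (0 : ℝ) ≤ ∑ y : Fin d, (d : ℝ) * (if Tra (W.R 0 q x) then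
          (d : ℝ) / (rs (fun j => W.a j x) (9600 * k) q y).card - 1 else 0) :=
      Finset.sum_nonneg fun y _ => hnn y
    by_cases hall : ∀ y : Fin d, rs (fun j => W.a j x) (9600 * k) q y = Finset.univ
    · rw [if_pos hall]
      have : (0 : ℝ) ≤ (if Tra (W.R 0 q x) then (0 : ℝ) else 1) := by
        split_ifs
        · exact le_rfl
        · exact zero_le_one
      linarith
    · rw [if_neg hall]
      by_cases hTx : Tra (W.R 0 q x)
      · push Not at hall
        obtain ⟨y, hy⟩ := hall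
        have h1 := Finset.single_le_sum (fun y _ => hnn y) (Finset.mem_univ y)
        rw [if_pos hTx, zero_add]
        refine le_trans ?_ h1
        rw [if_pos hTx]
        have hc : (0 : ℝ) < (rs (fun j => W.a j x) (9600 * k) q y).card := by
          exact_mod_cast rs_card_pos _ _ q y
        have hlt : (rs (fun j => W.a j x) (9600 * k) q y).card + 1 ≤ d := by
          have h2 : (rs (fun j => W.a j x) (9600 * k) q y).card < Fintype.card (Fin d) := by
            rw [← Finset.card_univ]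
            exact Finset.card_lt_card (Finset.ssubset_univ_iff.2 hy)
          rw [Fintype.card_fin] at h2
          exact h2
        have hlt' : ((rs (fun j => W.a j x) (9600 * k) q y).card : ℝ) + 1 ≤ d := by
          exact_mod_cast hlt
        have h3 : (d : ℝ) * ((d : ℝ) / (rs (fun j => W.a j x) (9600 * k) q y).card - 1) =
            (d : ℝ) * (d - (rs (fun j => W.a j x) (9600 * k) q y).card) /
              (rs (fun j => W.a j x) (9600 * k) q y).card := by
          field_simp
        rw [h3, le_div_iff₀ hc, one_mul]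
        nlinarith
      · rw [if_neg hTx]
        linarith
  have h1 : avg ⊤ (fun x => if ∀ y : Fin d, rs (fun j => W.a j x) (9600 * k) q y = Finset.univ
      then (0 : ℝ) else 1) γ ≤ avg ⊤ (fun x => (if Tra (W.R 0 q x) then (0 : ℝ) else 1) +
        ∑ y : Fin d, (d : ℝ) * (if Tra (W.R 0 q x) then
          (d : ℝ) / (rs (fun j => W.a j x) (9600 * k) q y).card - 1 else 0)) γ :=
    avg_le _ _ _ _ fun δ _ => hpt _
  rw [avg_add, avg_sum] at h1
  have h2 : avg ⊤ (fun x => if Tra (W.R 0 q x) then (0 : ℝ) else 1) γ ≤ 1 / 16 := by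
    have h3 := W.trans q m (by omega) le_rfl γ hT
    rw [W.top] at h3
    have h4 : avg ⊤ (fun x => if Tra (W.R 0 q x) then (0 : ℝ) else 1) γ ≤
        7 ^ q * (d : ℝ) / 8 ^ q := by
      rw [le_div_iff₀ (by positivity), mul_comm]
      exact h3
    exact h4.trans (cov_num2 k q hd hq)
  have h3 : ∑ y : Fin d, avg ⊤ (fun x => (d : ℝ) * (if Tra (W.R 0 q x) then
      (d : ℝ) / (rs (fun j => W.a j x) (9600 * k) q y).card - 1 else 0)) γ ≤ 1 / 8 := by
    have h4 : ∀ y : Fin d, avg ⊤ (fun x => (d : ℝ) * (if Tra (W.R 0 q x) then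
        (d : ℝ) / (rs (fun j => W.a j x) (9600 * k) q y).card - 1 else 0)) γ ≤
        (d : ℝ) * ((1 - 1 / 1600) ^ (9600 * k) * d) := by
      intro y
      rw [avg_mul]
      exact mul_le_mul_of_nonneg_left (W.pot k (9600 * k) q hk hd hd0 hq hm y γ) hdr.le
    calc _ ≤ ∑ _y : Fin d, (d : ℝ) * ((1 - 1 / 1600) ^ (9600 * k) * d) :=
          Finset.sum_le_sum fun y _ => h4 y
      _ = (d : ℝ) * (d * ((1 - 1 / 1600) ^ (9600 * k) * d)) := by
          rw [Finset.sum_const, Finset.card_univ, Fintype.card_fin, nsmul_eq_mul]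
      _ ≤ (1 / 8) ^ k := cov_num k hd
      _ ≤ (1 / 8) ^ 1 := pow_le_pow_of_le_one (by norm_num) (by norm_num) hk
      _ = 1 / 8 := by norm_num
  linarith

/-- Three blocks of length `10000 k` for one marking. -/
theorem Win.cover3 (W : Win Γ (Equiv.Perm (Fin d)) m) (k : ℕ) (hk : 0 < k) (hd : d ≤ 2 ^ k)
    (hd0 : 0 < d) (hm : 30000 * k ≤ m) (γ : Γ) (hT : Tra (W.R 0 m γ)) :
    ∃ x : Γ, ∀ i < 3, ∀ y z : Fin d, ∃ δ ∈ W.G (i * (10000 * k)) (i * (10000 * k) + 10000 * k),
      W.a (i * (10000 * k)) (x * δ) y = z := by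
  classical
  have hc : ∀ i < 3, avg ⊤ (fun x => if ∀ y : Fin d, rs (fun j => W.a j x) (9600 * k)
      (i * (10000 * k) + (400 * k - 1)) y = Finset.univ then (0 : ℝ) else 1) γ ≤ 3 / 16 := by
    intro i hi
    refine W.cover k _ hk hd hd0 ?_ ?_ γ hT
    · omega
    · interval_cases i <;> omega
  have hpos : 0 < avg ⊤ (fun x => (1 : ℝ) - ∑ i ∈ Finset.range 3,
      (if ∀ y : Fin d, rs (fun j => W.a j x) (9600 * k)
        (i * (10000 * k) + (400 * k - 1)) y = Finset.univ then (0 : ℝ) else 1)) γ := by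
    rw [avg_sub, avg_const, avg_sum]
    have h1 : ∑ i ∈ Finset.range 3, avg ⊤ (fun x => if ∀ y : Fin d,
        rs (fun j => W.a j x) (9600 * k)
        (i * (10000 * k) + (400 * k - 1)) y = Finset.univ then (0 : ℝ) else 1) γ ≤
        ∑ _i ∈ Finset.range 3, (3 / 16 : ℝ) :=
      Finset.sum_le_sum fun i hi => hc i (Finset.mem_range.1 hi)
    rw [Finset.sum_const, Finset.card_range, nsmul_eq_mul] at h1
    norm_num at h1
    linarith
  obtain ⟨δ, -, hδ⟩ := exists_of_avg_pos _ _ _ hpos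
  set x : Γ := γ * δ with hx
  refine ⟨x, fun i hi y z => ?_⟩
  have hall : ∀ y : Fin d, rs (fun j => W.a j x) (9600 * k)
      (i * (10000 * k) + (400 * k - 1)) y = Finset.univ := by
    by_contra hcon
    have h1 : (1 : ℝ) ≤ ∑ i ∈ Finset.range 3,
      (if ∀ y : Fin d, rs (fun j => W.a j x) (9600 * k)
        (i * (10000 * k) + (400 * k - 1)) y = Finset.univ then (0 : ℝ) else 1) := by
      have h2 := Finset.single_le_sum (f := fun i => (if ∀ y : Fin d,
        rs (fun j => W.a j x) (9600 * k)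
        (i * (10000 * k) + (400 * k - 1)) y = Finset.univ then (0 : ℝ) else 1))
        (fun i _ => by split_ifs <;> norm_num) (Finset.mem_range.2 hi)
      simp only [if_neg hcon] at h2
      exact h2
    linarith
  have hz : z ∈ rs (fun j => W.a j x) (9600 * k) (i * (10000 * k) + (400 * k - 1)) y := by
    rw [hall y]
    exact Finset.mem_univ z
  have hb : i * (10000 * k) + (400 * k - 1) + 9600 * k + 1 = i * (10000 * k) + 10000 * k := by
    omega
  have hbm : i * (10000 * k) + 10000 * k ≤ m := by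
    interval_cases i <;> omega
  obtain ⟨ε, hε, e⟩ := W.rs_sound (9600 * k) _ (by omega) x y z hz
  obtain ⟨τ, hτ, e'⟩ := W.bring (i * (10000 * k)) (i * (10000 * k) + (400 * k - 1)) (by omega)
    (by omega)
  refine ⟨ε * τ, Subgroup.mul_mem _ (W.mono _ _ _ _ (by omega) (by omega) hbm hε)
    (W.mono _ _ _ _ (by omega) (by omega) hbm hτ), ?_⟩
  rw [← mul_assoc x ε τ, e']
  exact e

end Pool.Agent.PWL
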