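import Pool.Agent.PWL.Win
import Pool.Agent.RGD.Cover

/-!
# PWL: the handles of a surface acting on finitely many points
-/

namespace Pool.Agent.PWL

open Pool.Agent.PWI Pool.Agent.RGD Pool.Agent.RGC

variable {g n d : ℕ}

namespace I2

/-- The twist of a handle. -/
theorem twist (q : ℕ) (h : q < g) :
    ∃ S : PMod g n, Pool.Agent.PWI.SuppI S q (q + 1) ∧ S.1 (sa q) = sa q * (sb q)⁻¹ := by
  obtain ⟨θ, h1, -⟩ := locB
  obtain ⟨S, hS, e⟩ := ext_supp (g := g) (n := n) 1 q (by omega) θ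
  refine ⟨S, hS, ?_⟩
  have := e (FreeGroup.of (Gen.a 0))
  rw [h1, map_mul, map_inv, iota_a, iota_b] at this
  exact this

theorem farW (q r : ℕ) (h : q < r) (hr : r < g) : ∃ T : PMod g n,
    Pool.Agent.PWI.SuppI T q (r + 1) ∧ T.1 (sa q) = sa q * sa r := by
  obtain ⟨V, hV, e⟩ := exV (g := g) (n := n) q (by omega)
  obtain ⟨B, hB, e1, -⟩ := Pool.Agent.PWI.bring (g := g) (n := n) (q + 1) r (by omega) hr
  refine ⟨B⁻¹ * V, (hB.inv.mono (by omega) le_rfl).mul (hV.mono le_rfl (by omega)), ?_⟩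
  show (B⁻¹).1 (V.1 (sa q)) = _
  rw [e, map_mul, act_inv_eq e1,
    hB.inv.fix (Or.inl le_rfl) (Pool.Agent.PWI.sa_mem_Wi le_rfl (Nat.lt_succ_self q))]

theorem farX (q r : ℕ) (h : q < r) (hr : r < g) (v : SG g n)
    (hv : ∃ S : PMod g n, Pool.Agent.PWI.SuppI S r (r + 1) ∧ S.1 (sa r) = v) : ∃ T : PMod g n,
    Pool.Agent.PWI.SuppI T q (r + 1) ∧ T.1 (sa q) = sa q * v := by
  obtain ⟨V, hV, e⟩ := farW (g := g) (n := n) q r h hr
  obtain ⟨B, hB, rfl⟩ := hv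
  refine ⟨B * V, (hB.mono (by omega) le_rfl).mul hV, ?_⟩
  show B.1 (V.1 (sa q)) = _
  rw [e, map_mul, hB.fix (q' := q) (r' := q + 1) (Or.inl (by omega))
    (Pool.Agent.PWI.sa_mem_Wi le_rfl (Nat.lt_succ_self q))]

theorem blk (q i : ℕ) (h : q + i ≤ g) : ∃ S : PMod g n, Pool.Agent.PWI.SuppI S 0 (q + i) ∧
    ∀ j < i, S.1 (sa j) = sa (q + j) ∧ S.1 (sb j) = sb (q + j) := by
  induction i with
  | zero => exact ⟨1, Pool.Agent.PWI.SuppI.one _ _, fun j hj => absurd hj (Nat.not_lt_zero _)⟩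
  | succ i ih =>
    obtain ⟨B, hB, hB1⟩ := ih (by omega)
    obtain ⟨R, hR, e1, e2⟩ := Pool.Agent.PWI.bring (g := g) (n := n) i (q + i) (by omega) (by omega)
    refine ⟨B * R⁻¹, (hB.mono le_rfl (by omega)).mul (hR.inv.mono (by omega) (by omega)), ?_⟩
    intro j hj
    show B.1 ((R⁻¹).1 (sa j)) = _ ∧ B.1 ((R⁻¹).1 (sb j)) = _
    rcases Nat.lt_succ_iff_lt_or_eq.1 hj with h1 | h1
    · rw [hR.inv.fix (q' := j) (r' := j + 1) (Or.inl (by omega))
        (Pool.Agent.PWI.sa_mem_Wi le_rfl (Nat.lt_succ_self j)),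
        hR.inv.fix (q' := j) (r' := j + 1) (Or.inl (by omega))
        (Pool.Agent.PWI.sb_mem_Wi le_rfl (Nat.lt_succ_self j))]
      exact hB1 j h1
    · subst h1
      rw [act_inv_eq e1, act_inv_eq e2]
      exact ⟨hB.fix (q' := q + j) (r' := q + j + 1) (Or.inr le_rfl)
        (Pool.Agent.PWI.sa_mem_Wi le_rfl (Nat.lt_succ_self _)),
        hB.fix (q' := q + j) (r' := q + j + 1) (Or.inr le_rfl)
        (Pool.Agent.PWI.sb_mem_Wi le_rfl (Nat.lt_succ_self _))⟩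

/-- The subgroup of all handles. -/
abbrev WW (g n : ℕ) : Subgroup (SG g n) := Pool.Agent.PWI.Wi 0 g

/-- The mapping classes supported on the handles. -/
def PP (g n : ℕ) : Subgroup (PMod g n) where
  carrier := {S | Pool.Agent.PWI.SuppI S 0 g}
  one_mem' := Pool.Agent.PWI.SuppI.one _ _
  mul_mem' := fun h h' => Pool.Agent.PWI.SuppI.mul h h'
  inv_mem' := fun h => Pool.Agent.PWI.SuppI.inv h

/-- Restriction to the handles. -/
def res (S : PP g n) : WW g n →* WW g n :=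
  ((MulEquiv.toMonoidHom S.1.1).comp (WW g n).subtype).codRestrict (WW g n)
    (fun x => S.2.2.1 x.1 x.2)

theorem res_mul (S T : PP g n) : res (S * T) = (res S).comp (res T) :=
  MonoidHom.ext fun _ => Subtype.ext rfl

theorem res_one : res (1 : PP g n) = MonoidHom.id _ :=
  MonoidHom.ext fun _ => Subtype.ext rfl

/-- The finite set on which everything acts. -/
abbrev XX (g n d : ℕ) := WW g n →* Equiv.Perm (Fin d)

/-- The action. -/
def Phi (g n d : ℕ) : PP g n →* Equiv.Perm (XX g n d) where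
  toFun S :=
    { toFun := fun f => f.comp (res S⁻¹)
      invFun := fun f => f.comp (res S)
      left_inv := fun f => by
        show (f.comp (res S⁻¹)).comp (res S) = f
        rw [MonoidHom.comp_assoc, ← res_mul, inv_mul_cancel, res_one, MonoidHom.comp_id]
      right_inv := fun f => by
        show (f.comp (res S)).comp (res S⁻¹) = f
        rw [MonoidHom.comp_assoc, ← res_mul, mul_inv_cancel, res_one, MonoidHom.comp_id] }
  map_one' := Equiv.ext fun f => by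
    show f.comp (res (1 : PP g n)⁻¹) = f
    rw [inv_one, res_one, MonoidHom.comp_id]
  map_mul' S T := Equiv.ext fun f => by
    show f.comp (res (S * T)⁻¹) = (f.comp (res T⁻¹)).comp (res S⁻¹)
    rw [mul_inv_rev, res_mul, MonoidHom.comp_assoc]

theorem sa_all (j : ℕ) : (sa j : SG g n) ∈ WW g n := by
  by_cases h : j < g
  · exact Pool.Agent.PWI.sa_mem_Wi (Nat.zero_le _) h
  · have e : (sa j : SG g n) = 1 := dif_neg h
    rw [e]
    exact (WW g n).one_mem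

theorem sb_all (j : ℕ) : (sb j : SG g n) ∈ WW g n := by
  by_cases h : j < g
  · exact Pool.Agent.PWI.sb_mem_Wi (Nat.zero_le _) h
  · have e : (sb j : SG g n) = 1 := dif_neg h
    rw [e]
    exact (WW g n).one_mem

/-- The curve `a_j`. -/
def ua (j : ℕ) : WW g n := ⟨sa j, sa_all j⟩

/-- The curve `b_j`, reversed. -/
def ub (j : ℕ) : WW g n := ⟨(sb j)⁻¹, (WW g n).inv_mem (sb_all j)⟩

theorem fin_XX : Finite (XX g n d) := by
  let F : XX g n d → (Fin g → Equiv.Perm (Fin d) × Equiv.Perm (Fin d)) :=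
    fun f k => (f (ua k.1), f (ub k.1))
  refine Finite.of_injective F ?_
  intro f f' h
  have hk : ∀ k, k < g → f (ua k) = f' (ua k) ∧ f (ub k) = f' (ub k) := by
    intro k hk
    have h1 := congrFun h ⟨k, hk⟩
    exact ⟨congrArg Prod.fst h1, congrArg Prod.snd h1⟩
  have key : ∀ x : SG g n, ∀ hx : x ∈ WW g n, f ⟨x, hx⟩ = f' ⟨x, hx⟩ := by
    intro x hx
    have h2 : (WW g n) ≤ (MonoidHom.eqLocus f f').map (WW g n).subtype := by
      unfold WW
      refine (Subgroup.closure_le _).2 ?_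
      rintro y ⟨k, -, hkg, rfl | rfl⟩
      · exact ⟨ua k, (hk k hkg).1, rfl⟩
      · refine ⟨(ub k)⁻¹, ?_, ?_⟩
        · show f (ub k)⁻¹ = f' (ub k)⁻¹
          rw [map_inv, map_inv, (hk k hkg).2]
        · show ((sb k)⁻¹)⁻¹ = sb k
          rw [inv_inv]
    obtain ⟨y, hy, rfl⟩ := h2 hx
    exact hy
  exact MonoidHom.ext fun x => key x.1 x.2

/-- The finite group. -/
abbrev GG (g n d : ℕ) := (Phi g n d).range

theorem fin_GG : Finite (GG g n d) := by
  have := fin_XX (g := g) (n := n) (d := d)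
  infer_instance

/-- The values of the marking `γ`. -/
def ev (ρ : SG g n →* Equiv.Perm (Fin d)) (γ : GG g n d) : XX g n d :=
  (γ⁻¹ : GG g n d).1 (ρ.comp (WW g n).subtype)

theorem ev_mul (ρ : SG g n →* Equiv.Perm (Fin d)) (γ : GG g n d) (S : PP g n) :
    ev ρ (γ * (Phi g n d).rangeRestrict S) = (ev ρ γ).comp (res S) := by
  unfold ev
  rw [mul_inv_rev]
  rfl

theorem ev_one (ρ : SG g n →* Equiv.Perm (Fin d)) (u : WW g n) :
    ev ρ (1 : GG g n d) u = ρ u.1 := by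
  unfold ev
  rw [inv_one]
  rfl

/-- The mapping classes supported on an interval. -/
def sub (g n q r : ℕ) : Subgroup (PP g n) where
  carrier := {S | Pool.Agent.PWI.SuppI S.1 q r}
  one_mem' := Pool.Agent.PWI.SuppI.one _ _
  mul_mem' := fun h h' => Pool.Agent.PWI.SuppI.mul h h'
  inv_mem' := fun h => Pool.Agent.PWI.SuppI.inv h

theorem mv (ρ : SG g n →* Equiv.Perm (Fin d)) {q r : ℕ} (hr : r ≤ g) (u v : WW g n)
    (h : ∃ S : PMod g n, Pool.Agent.PWI.SuppI S q r ∧ S.1 u.1 = v.1) :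
    ∃ τ ∈ (sub g n q r).map (Phi g n d).rangeRestrict, ∀ γ, ev ρ (γ * τ) u = ev ρ γ v := by
  obtain ⟨S, hS, e⟩ := h
  refine ⟨(Phi g n d).rangeRestrict ⟨S, hS.mono (Nat.zero_le _) hr⟩,
    ⟨⟨S, hS.mono (Nat.zero_le _) hr⟩, hS, rfl⟩, fun γ => ?_⟩
  rw [ev_mul]
  exact congrArg (ev ρ γ) (Subtype.ext e)

/-- The structure. -/
def win (ρ : SG g n →* Equiv.Perm (Fin d)) : Win (GG g n d) (Equiv.Perm (Fin d)) g where
  G q r := (sub g n q r).map (Phi g n d).rangeRestrict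
  a j γ := ev ρ γ (ua j)
  b j γ := ev ρ γ (ub j)
  top := by
    rw [eq_top_iff]
    rintro γ -
    obtain ⟨S, hS⟩ := γ.2
    exact ⟨S, S.2, Subtype.ext hS⟩
  mono q r q' r' h1 h2 _ := Subgroup.map_mono fun S hS => Pool.Agent.PWI.SuppI.mono hS h1 h2
  fix q r j γ δ hδ hj := by
    obtain ⟨S, hS, rfl⟩ := hδ
    have h1 : S.1.1 (sa j) = sa j ∧ S.1.1 (sb j) = sb j :=
      hS.1.1 j (by simp only [Set.mem_ofPred_eq]; omega)
    rw [ev_mul]
    refine ⟨congrArg (ev ρ γ) (Subtype.ext h1.1), congrArg (ev ρ γ) (Subtype.ext ?_)⟩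
    show S.1.1 ((sb j)⁻¹) = (sb j)⁻¹
    rw [map_inv, h1.2]
  gen q r γ δ K hr hδ h := by
    obtain ⟨S, hS, rfl⟩ := hδ
    have key : (Pool.Agent.PWI.Wi q r : Subgroup (SG g n)) ≤
        (K.comap (ev ρ γ)).map (WW g n).subtype := by
      refine (Subgroup.closure_le _).2 ?_
      rintro y ⟨k, hk1, hk2, rfl | rfl⟩
      · exact ⟨ua k, (h k hk1 hk2).1, rfl⟩
      · refine ⟨(ub k)⁻¹, ?_, ?_⟩
        · show ev ρ γ (ub k)⁻¹ ∈ K
          rw [map_inv]
          exact K.inv_mem (h k hk1 hk2).2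
        · show ((sb k)⁻¹)⁻¹ = sb k
          rw [inv_inv]
    have key2 : ∀ u : WW g n, u.1 ∈ (Pool.Agent.PWI.Wi q r : Subgroup (SG g n)) →
        ev ρ γ u ∈ K := by
      intro u hu
      obtain ⟨y, hy, e⟩ := key hu
      have e' : y = u := Subtype.ext e
      rw [← e']
      exact hy
    intro j h1 h2
    rw [ev_mul]
    refine ⟨key2 _ (hS.2.1 _ (Pool.Agent.PWI.sa_mem_Wi h1 h2)), key2 _ ?_⟩
    exact hS.2.1 _ ((Pool.Agent.PWI.Wi q r).inv_mem (Pool.Agent.PWI.sb_mem_Wi h1 h2))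
  one1 q hq := mv ρ (by omega) (ua q) (ub q) (exR q hq)
  one2 q hq := by
    obtain ⟨τ, hτ, e⟩ := mv ρ (by omega) (ua q) (ua q * ub q) (twist q hq)
    exact ⟨τ, hτ, fun γ => by rw [e, map_mul]⟩
  mv1 q r h hr := by
    obtain ⟨τ, hτ, e⟩ := mv ρ (by omega) (ua q) (ua q * ua r) (farW q r h hr)
    exact ⟨τ, hτ, fun γ => by rw [e, map_mul]⟩
  mv2 q r h hr := by
    obtain ⟨τ, hτ, e⟩ := mv ρ (by omega) (ua q) (ua q * ub r) (farX q r h hr _ (exR r hr))
    exact ⟨τ, hτ, fun γ => by rw [e, map_mul]⟩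
  mv3 q r h hr := by
    obtain ⟨τ, hτ, e⟩ := mv ρ (by omega) (ua q) (ua q * (ua r * ub r))
      (farX q r h hr _ (twist r hr))
    exact ⟨τ, hτ, fun γ => by rw [e, map_mul, map_mul]⟩
  bring q r h hr := by
    obtain ⟨B, hB, e1, -⟩ := Pool.Agent.PWI.bring (g := g) (n := n) q r h hr
    exact mv ρ (by omega) (ua q) (ua r) ⟨B⁻¹, hB.inv, act_inv_eq e1⟩
  block q i h := by
    obtain ⟨S, hS, hj⟩ := blk (g := g) (n := n) q i h
    refine ⟨(Phi g n d).rangeRestrict ⟨S, hS.mono (Nat.zero_le _) h⟩, fun γ j hji => ?_⟩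
    rw [ev_mul]
    refine ⟨congrArg (ev ρ γ) (Subtype.ext (hj j hji).1), congrArg (ev ρ γ) (Subtype.ext ?_)⟩
    show S.1 ((sb j)⁻¹) = (sb (q + j))⁻¹
    rw [map_inv, (hj j hji).2]

end I2

open I2 in
/-- The handles of a surface acting on `d` points, as an abstract interval structure. -/
theorem inst2 (ρ : SG g n →* Equiv.Perm (Fin d)) :
    ∃ (Γ : Type) (_ : Group Γ) (_ : Fintype Γ) (W : Win Γ (Equiv.Perm (Fin d)) g)
      (S : Γ → PMod g n),
      (∀ q r γ δ, q < r → r ≤ g → δ ∈ W.G q r →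
        ∃ v : SG g n, Sp q r v ∧ W.a q (γ * δ) = ρ ((S γ).1 v)) ∧
      (∀ j < g, ρ (sa j) ∈ W.R 0 g 1 ∧ ρ (sb j) ∈ W.R 0 g 1) := by
  have hfin := fin_GG (g := g) (n := n) (d := d)
  have hS : ∀ γ : GG g n d, ∃ S : PP g n, (Phi g n d).rangeRestrict S = γ := by
    intro γ
    obtain ⟨S, hS⟩ := γ.2
    exact ⟨S, Subtype.ext hS⟩
  choose S hS using hS
  refine ⟨GG g n d, inferInstance, Fintype.ofFinite _, win ρ, fun γ => (S γ).1, ?_, ?_⟩
  · rintro q r γ δ hqr hr ⟨T, hT, rfl⟩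
    refine ⟨T.1.1 (sa q), ⟨T.1, suppI_of hT, rfl⟩, ?_⟩
    show ev ρ (γ * (Phi g n d).rangeRestrict T) (ua q) = _
    rw [ev_mul]
    have h1 : γ = 1 * (Phi g n d).rangeRestrict (S γ) := by rw [hS, one_mul]
    have h2 : ev ρ γ = (ev ρ 1).comp (res (S γ)) := by
      conv_lhs => rw [h1]
      exact ev_mul ρ 1 (S γ)
    rw [h2]
    exact ev_one ρ _
  · intro j hj
    have ha : ρ (sa j) ∈ (win ρ).R 0 g 1 := by
      have e : (win ρ).a j 1 = ρ (sa j) := ev_one ρ _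
      rw [← e]
      exact (((win ρ).R_le_iff 0 g 1 _).1 le_rfl j (Nat.zero_le _) hj).1
    have hb : (ρ (sb j))⁻¹ ∈ (win ρ).R 0 g 1 := by
      have e : (win ρ).b j 1 = (ρ (sb j))⁻¹ := by
        have e1 : (win ρ).b j 1 = ρ ((sb j)⁻¹) := ev_one ρ _
        rw [e1, map_inv]
      rw [← e]
      exact (((win ρ).R_le_iff 0 g 1 _).1 le_rfl j (Nat.zero_le _) hj).2
    exact ⟨ha, inv_inv (ρ (sb j)) ▸ Subgroup.inv_mem _ hb⟩

end Pool.Agent.PWL
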