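import Pool.Agent.PWL.Sub

/-!
# PWL: prefixes are transitive
-/

namespace Pool.Agent.PWL

/-- `K` acts transitively. -/
def Tra {d : ℕ} (K : Subgroup (Equiv.Perm (Fin d))) : Prop := ∀ i j : Fin d, ∃ h ∈ K, h i = j

theorem Tra.mono {d : ℕ} {K L : Subgroup (Equiv.Perm (Fin d))} (h : K ≤ L) (hK : Tra K) : Tra L :=
  fun i j => by obtain ⟨x, hx, e⟩ := hK i j; exact ⟨x, h hx, e⟩

/-- The permutations which preserve `O`. -/
def stO {d : ℕ} (O : Finset (Fin d)) : Subgroup (Equiv.Perm (Fin d)) where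
  carrier := {h | ∀ i, h i ∈ O ↔ i ∈ O}
  one_mem' := fun _ => Iff.rfl
  mul_mem' := fun {a b} ha hb i => (ha (b i)).trans (hb i)
  inv_mem' := fun {a} ha i => by
    have := ha (a⁻¹ i)
    have e : a (a⁻¹ i) = i := by
      rw [← Equiv.Perm.mul_apply, mul_inv_cancel, Equiv.Perm.one_apply]
    rw [e] at this
    exact this.symm

open Classical in
/-- The orbit of `i`. -/
noncomputable def orb {d : ℕ} (K : Subgroup (Equiv.Perm (Fin d))) (i : Fin d) : Finset (Fin d) :=
  Finset.univ.filter fun j => ∃ h ∈ K, h i = j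

open Classical in
/-- The orbits. -/
noncomputable def orbs {d : ℕ} (K : Subgroup (Equiv.Perm (Fin d))) : Finset (Finset (Fin d)) :=
  Finset.univ.image (orb K)

theorem mem_orb {d : ℕ} {K : Subgroup (Equiv.Perm (Fin d))} {i j : Fin d} :
    j ∈ orb K i ↔ ∃ h ∈ K, h i = j := by
  classical
  unfold orb
  rw [Finset.mem_filter]
  exact ⟨fun h => h.2, fun h => ⟨Finset.mem_univ _, h⟩⟩

theorem self_mem_orb {d : ℕ} (K : Subgroup (Equiv.Perm (Fin d))) (i : Fin d) : i ∈ orb K i :=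
  mem_orb.2 ⟨1, K.one_mem, rfl⟩

theorem orb_eq {d : ℕ} {K : Subgroup (Equiv.Perm (Fin d))} {i j : Fin d} (h : j ∈ orb K i) :
    orb K j = orb K i := by
  obtain ⟨a, ha, rfl⟩ := mem_orb.1 h
  ext k
  rw [mem_orb, mem_orb]
  constructor
  · rintro ⟨b, hb, rfl⟩
    exact ⟨b * a, K.mul_mem hb ha, rfl⟩
  · rintro ⟨b, hb, rfl⟩
    refine ⟨b * a⁻¹, K.mul_mem hb (K.inv_mem ha), ?_⟩
    rw [← Equiv.Perm.mul_apply, mul_assoc, inv_mul_cancel, mul_one]

theorem mem_orbs {d : ℕ} {K : Subgroup (Equiv.Perm (Fin d))} {O : Finset (Fin d)} :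
    O ∈ orbs K ↔ ∃ i, orb K i = O := by
  classical
  unfold orbs
  rw [Finset.mem_image]
  exact ⟨fun ⟨i, _, h⟩ => ⟨i, h⟩, fun ⟨i, h⟩ => ⟨i, Finset.mem_univ _, h⟩⟩

theorem le_stO {d : ℕ} {K : Subgroup (Equiv.Perm (Fin d))} {O : Finset (Fin d)} (h : O ∈ orbs K) :
    K ≤ stO O := by
  obtain ⟨i, rfl⟩ := mem_orbs.1 h
  intro a ha j
  have e : orb K (a j) = orb K j := orb_eq (mem_orb.2 ⟨a, ha, rfl⟩)
  constructor
  · intro h1
    rw [← orb_eq h1, e]
    exact self_mem_orb K j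
  · intro h1
    rw [← orb_eq h1, ← e]
    exact self_mem_orb K _

open Classical in
/-- Moved orbits are merged. -/
theorem merge {d : ℕ} (K K' : Subgroup (Equiv.Perm (Fin d))) (hK : K ≤ K')
    (a : Equiv.Perm (Fin d)) (ha : a ∈ K') :
    2 * (orbs K').card + ((orbs K).filter fun O => a ∉ stO O).card ≤ 2 * (orbs K).card := by
  -- the map on orbits
  obtain ⟨φ, hφ⟩ : ∃ φ : Finset (Fin d) → Finset (Fin d), ∀ i, φ (orb K i) = orb K' i := by
    refine ⟨fun O => Finset.univ.filter fun j => ∃ i ∈ O, j ∈ orb K' i, fun i => ?_⟩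
    ext j
    rw [Finset.mem_filter]
    constructor
    · rintro ⟨_, k, hk, hj⟩
      obtain ⟨b, hb, rfl⟩ := mem_orb.1 hk
      rwa [orb_eq (mem_orb.2 ⟨b, hK hb, rfl⟩)] at hj
    · intro hj
      exact ⟨Finset.mem_univ _, i, self_mem_orb K i, hj⟩
  have hmap : ∀ O ∈ orbs K, φ O ∈ orbs K' := by
    intro O hO
    obtain ⟨i, rfl⟩ := mem_orbs.1 hO
    exact mem_orbs.2 ⟨i, (hφ i).symm⟩
  have h1 : (orbs K).card = ∑ b ∈ orbs K', ((orbs K).filter fun O => φ O = b).card :=
    Finset.card_eq_sum_card_fiberwise hmap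
  have h2 : ((orbs K).filter fun O => a ∉ stO O).card =
      ∑ b ∈ orbs K', (((orbs K).filter fun O => a ∉ stO O).filter fun O => φ O = b).card :=
    Finset.card_eq_sum_card_fiberwise fun O hO => hmap O (Finset.mem_filter.1 hO).1
  rw [h1, h2, Finset.card_eq_sum_ones, Finset.mul_sum, Finset.mul_sum, ← Finset.sum_add_distrib]
  refine Finset.sum_le_sum fun b hb => ?_
  have h3 : (((orbs K).filter fun O => a ∉ stO O).filter fun O => φ O = b).card ≤
      ((orbs K).filter fun O => φ O = b).card := by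
    refine Finset.card_le_card fun O hO => ?_
    rw [Finset.mem_filter, Finset.mem_filter] at hO
    exact Finset.mem_filter.2 ⟨hO.1.1, hO.2⟩
  rcases Finset.eq_empty_or_nonempty
    (((orbs K).filter fun O => a ∉ stO O).filter fun O => φ O = b) with h0 | ⟨O, hO⟩
  · rw [h0, Finset.card_empty]
    obtain ⟨i, rfl⟩ := mem_orbs.1 hb
    have : 0 < ((orbs K).filter fun O => φ O = orb K' i).card :=
      Finset.card_pos.2 ⟨orb K i, Finset.mem_filter.2 ⟨mem_orbs.2 ⟨i, rfl⟩, hφ i⟩⟩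
    omega
  · rw [Finset.mem_filter, Finset.mem_filter] at hO
    obtain ⟨⟨hO1, hO2⟩, hO3⟩ := hO
    obtain ⟨j, hj⟩ := mem_orbs.1 hO1
    have h4 : ∃ i, ¬ (a i ∈ O ↔ i ∈ O) := by
      by_contra hcon
      push Not at hcon
      exact hO2 hcon
    obtain ⟨i, hi⟩ := h4
    have e1 : orb K' (a i) = orb K' i := orb_eq (mem_orb.2 ⟨a, ha, rfl⟩)
    have e2 : ∀ k, k ∈ O → orb K' k = b := by
      intro k hk
      have e3 : orb K k = O := by
        rw [← hj] at hk
        rw [orb_eq hk, hj]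
      rw [← hφ k, e3, hO3]
    have h5 : ∃ k, k ∉ O ∧ orb K' k = b := by
      by_cases h6 : i ∈ O
      · refine ⟨a i, fun h7 => hi ⟨fun _ => h6, fun _ => h7⟩, ?_⟩
        rw [e1]
        exact e2 i h6
      · by_cases h7 : a i ∈ O
        · exact ⟨i, h6, by rw [← e1]; exact e2 _ h7⟩
        · exact absurd ⟨fun h => absurd h h7, fun h => absurd h h6⟩ hi
    obtain ⟨k, hk, hkb⟩ := h5
    have h6 : 1 < ((orbs K).filter fun O => φ O = b).card := by
      rw [Finset.one_lt_card]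
      refine ⟨O, Finset.mem_filter.2 ⟨hO1, hO3⟩, orb K k,
        Finset.mem_filter.2 ⟨mem_orbs.2 ⟨k, rfl⟩, by rw [hφ, hkb]⟩, ?_⟩
      intro h7
      apply hk
      rw [h7]
      exact self_mem_orb K k
    omega

theorem card_orbs_le {d : ℕ} (K : Subgroup (Equiv.Perm (Fin d))) : (orbs K).card ≤ d := by
  classical
  unfold orbs
  exact Finset.card_image_le.trans (by rw [Finset.card_univ, Fintype.card_fin])

theorem card_orbs_pos {d : ℕ} (hd : 0 < d) (K : Subgroup (Equiv.Perm (Fin d))) :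
    1 ≤ (orbs K).card :=
  Finset.card_pos.2 ⟨orb K ⟨0, hd⟩, mem_orbs.2 ⟨_, rfl⟩⟩

theorem card_orbs_tra {d : ℕ} {K : Subgroup (Equiv.Perm (Fin d))} (hK : Tra K) :
    (orbs K).card ≤ 1 := by
  rw [Finset.card_le_one]
  intro a ha b hb
  obtain ⟨i, rfl⟩ := mem_orbs.1 ha
  obtain ⟨j, rfl⟩ := mem_orbs.1 hb
  exact (orb_eq (mem_orb.2 (hK i j))).symm

theorem card_orbs_not {d : ℕ} {K : Subgroup (Equiv.Perm (Fin d))} (hK : ¬ Tra K) :
    2 ≤ (orbs K).card := by
  unfold Tra at hK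
  push Not at hK
  obtain ⟨i, j, hij⟩ := hK
  have : 1 < (orbs K).card := by
    rw [Finset.one_lt_card]
    refine ⟨orb K i, mem_orbs.2 ⟨i, rfl⟩, orb K j, mem_orbs.2 ⟨j, rfl⟩, fun h => ?_⟩
    have h1 : j ∈ orb K i := by rw [h]; exact self_mem_orb K j
    obtain ⟨b, hb, e⟩ := mem_orb.1 h1
    exact hij b hb e
  exact this

variable {Γ : Type*} [Group Γ] [Fintype Γ] {d m : ℕ}

/-- One step. -/
theorem Win.trans_step (W : Win Γ (Equiv.Perm (Fin d)) m) (hd : 0 < d) (s r : ℕ) (hs : s < r)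
    (hr : r ≤ m) (x : Γ) (h : Tra (W.R 0 r x)) :
    avg (W.G s r) (fun y => ((orbs (W.R 0 (s + 1) y)).card : ℝ) - 1) x ≤
      7 / 8 * (((orbs (W.R 0 s x)).card : ℝ) - 1) := by
  classical
  have hKy : ∀ δ ∈ W.G s r, W.R 0 s (x * δ) = W.R 0 s x := fun δ hδ =>
    W.R_fix 0 s s r (Or.inl le_rfl) x δ hδ
  have hle : ∀ y : Γ, W.R 0 s y ≤ W.R 0 (s + 1) y := fun y => W.R_mono le_rfl (Nat.le_succ s) y
  by_cases hT : Tra (W.R 0 s x)
  · have h1 : ((orbs (W.R 0 s x)).card : ℝ) = 1 := by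
      have h2 := card_orbs_tra hT
      have h3 := card_orbs_pos hd (W.R 0 s x)
      have : (orbs (W.R 0 s x)).card = 1 := by omega
      rw [this, Nat.cast_one]
    rw [h1, sub_self, mul_zero, ← avg_const (W.G s r) 0 x]
    refine avg_le _ _ _ _ fun δ hδ => ?_
    have h2 : Tra (W.R 0 (s + 1) (x * δ)) := Tra.mono (hle _) (by rw [hKy δ hδ]; exact hT)
    have h3 : ((orbs (W.R 0 (s + 1) (x * δ))).card : ℝ) ≤ 1 := by
      exact_mod_cast card_orbs_tra h2
    linarith
  · set K := W.R 0 s x with hK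
    have hO : ∀ O ∈ orbs K, ¬ W.R s r x ≤ stO O := by
      intro O hO hcon
      apply hT
      have h1 : W.R 0 r x ≤ stO O := by
        rw [W.R_le_iff]
        intro j _ hj
        rcases lt_or_ge j s with h2 | h2
        · exact (W.R_le_iff 0 s x _).1 (le_stO hO) j (Nat.zero_le _) h2
        · exact (W.R_le_iff s r x _).1 hcon j h2 hj
      obtain ⟨i0, rfl⟩ := mem_orbs.1 hO
      have h2 : ∀ j, j ∈ orb K i0 := by
        intro j
        obtain ⟨b, hb, rfl⟩ := h i0 j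
        exact (h1 hb i0).2 (self_mem_orb K i0)
      intro i j
      have h3 := h2 j
      rw [← orb_eq (h2 i)] at h3
      exact mem_orb.1 h3
    have hmass : ∀ O ∈ orbs K,
        avg (W.G s r) (fun y => if W.a s y ∈ stO O then (1 : ℝ) else 0) x ≤ 3 / 4 := by
      intro O hO1
      have h1 := W.mass s r hs hr (stO O) 1 x (hO O hO1)
      simpa only [inv_one, mul_one] using h1
    have hpt : ∀ δ ∈ W.G s r, ((orbs (W.R 0 (s + 1) (x * δ))).card : ℝ) - 1 ≤
        (((orbs K).card : ℝ) - 1) - 1 / 2 * ((orbs K).card : ℝ) +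
          1 / 2 * ∑ O ∈ orbs K, (if W.a s (x * δ) ∈ stO O then (1 : ℝ) else 0) := by
      intro δ hδ
      have h1 : K ≤ W.R 0 (s + 1) (x * δ) := by
        rw [← hKy δ hδ]
        exact hle _
      have h2 : W.a s (x * δ) ∈ W.R 0 (s + 1) (x * δ) :=
        ((W.R_le_iff 0 (s + 1) (x * δ) _).1 le_rfl s (Nat.zero_le _) (Nat.lt_succ_self s)).1
      have h3 := merge K _ h1 _ h2
      have h4 : ((orbs K).filter fun O => W.a s (x * δ) ∉ stO O).card +
          ((orbs K).filter fun O => W.a s (x * δ) ∈ stO O).card = (orbs K).card := by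
        rw [add_comm]
        exact Finset.card_filter_add_card_filter_not _
      have h5 : ∑ O ∈ orbs K, (if W.a s (x * δ) ∈ stO O then (1 : ℝ) else 0) =
          (((orbs K).filter fun O => W.a s (x * δ) ∈ stO O).card : ℝ) := by
        rw [Finset.sum_boole]
      rw [h5]
      have h3' : 2 * ((orbs (W.R 0 (s + 1) (x * δ))).card : ℝ) +
          (((orbs K).filter fun O => W.a s (x * δ) ∉ stO O).card : ℝ) ≤
            2 * ((orbs K).card : ℝ) := by exact_mod_cast h3
      have h4' : (((orbs K).filter fun O => W.a s (x * δ) ∉ stO O).card : ℝ) +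
          (((orbs K).filter fun O => W.a s (x * δ) ∈ stO O).card : ℝ) = ((orbs K).card : ℝ) := by
        exact_mod_cast h4
      linarith
    have h1 := avg_le (W.G s r)
      (fun y => ((orbs (W.R 0 (s + 1) y)).card : ℝ) - 1)
      (fun y => ((((orbs K).card : ℝ) - 1) - 1 / 2 * ((orbs K).card : ℝ)) +
          1 / 2 * ∑ O ∈ orbs K, (if W.a s y ∈ stO O then (1 : ℝ) else 0)) x hpt
    rw [avg_add, avg_const, avg_mul, avg_sum] at h1
    have h2 : ∑ O ∈ orbs K,
        avg (W.G s r) (fun y => if W.a s y ∈ stO O then (1 : ℝ) else 0) x ≤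
          ∑ _O ∈ orbs K, (3 / 4 : ℝ) := Finset.sum_le_sum fun O hO1 => hmass O hO1
    rw [Finset.sum_const, nsmul_eq_mul] at h2
    have h3 : (2 : ℝ) ≤ ((orbs K).card : ℝ) := by exact_mod_cast card_orbs_not hT
    linarith

open Classical in
/-- The first `s` handles of an interval `0, ..., r - 1` with transitive group are transitive with
probability at least `1 - (7/8)^s d`. -/
theorem Win.trans (W : Win Γ (Equiv.Perm (Fin d)) m) (s r : ℕ) (hs : s ≤ r) (hr : r ≤ m) (γ : Γ)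
    (h : Tra (W.R 0 r γ)) :
    8 ^ s * avg (W.G 0 r) (fun x => if Tra (W.R 0 s x) then (0 : ℝ) else 1) γ ≤ 7 ^ s * d := by
  rcases Nat.eq_zero_or_pos d with rfl | hd
  · have h1 : (fun x : Γ => if Tra (W.R 0 s x) then (0 : ℝ) else 1) = fun _ => 0 := by
      funext x
      rw [if_pos]
      exact fun i => i.elim0
    rw [h1, avg_const]
    simp
  have key : ∀ s, s ≤ r → 8 ^ s * avg (W.G 0 r)
      (fun x => ((orbs (W.R 0 s x)).card : ℝ) - 1) γ ≤ 7 ^ s * d := by
    intro s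
    induction s with
    | zero =>
      intro _
      rw [pow_zero, pow_zero, one_mul, one_mul, ← avg_const (W.G 0 r) (d : ℝ) γ]
      refine avg_le _ _ _ _ fun δ _ => ?_
      have : ((orbs (W.R 0 0 (γ * δ))).card : ℝ) ≤ d := by exact_mod_cast card_orbs_le _
      linarith
    | succ s ih =>
      intro hsr
      have h1 := ih (by omega)
      have h2 : avg (W.G 0 r) (fun x => ((orbs (W.R 0 (s + 1) x)).card : ℝ) - 1) γ ≤
          7 / 8 * avg (W.G 0 r) (fun x => ((orbs (W.R 0 s x)).card : ℝ) - 1) γ := by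
        rw [← avg_avg (W.G s r) (W.G 0 r) (W.mono s r 0 r (Nat.zero_le _) le_rfl hr), ← avg_mul]
        refine avg_le _ _ _ _ fun δ hδ => ?_
        exact W.trans_step hd s r (by omega) hr (γ * δ) (by rw [W.R_inv 0 r hr γ δ hδ]; exact h)
      have h3 : (0 : ℝ) < 8 ^ s := by positivity
      rw [pow_succ, pow_succ]
      nlinarith
  refine le_trans ?_ (key s hs)
  refine mul_le_mul_of_nonneg_left ?_ (by positivity)
  refine avg_le _ _ _ _ fun δ _ => ?_
  split_ifs with hT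
  · have : (1 : ℝ) ≤ ((orbs (W.R 0 s (γ * δ))).card : ℝ) := by
      exact_mod_cast card_orbs_pos hd _
    linarith
  · have : (2 : ℝ) ≤ ((orbs (W.R 0 s (γ * δ))).card : ℝ) := by
      exact_mod_cast card_orbs_not hT
    linarith

end Pool.Agent.PWL
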