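import Pool.Agent.PWL.Stage
import Pool.Agent.PWL.Tra

/-!
# PWL: level sets of almost invariant functions
-/

namespace Pool.Agent.PWL

variable {Γ : Type*} [Group Γ] [Fintype Γ] {d m : ℕ}

/-- A gap between the values of a function. -/
theorem exists_gap (hd : 0 < d) (v : Fin d → ℝ) (hv : ∑ z, v z = 0) (hn : 1 / 4 ≤ nsq v) :
    ∃ L : Finset (Fin d), L.Nonempty ∧ (∃ z, z ∉ L) ∧
      ∀ z ∈ L, ∀ y ∉ L, 1 ≤ 4 * (d : ℝ) ^ 3 * (v z - v y) ^ 2 := by
  classical
  haveI : Nonempty (Fin d) := ⟨⟨0, hd⟩⟩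
  have hd' : (0 : ℝ) < d := by exact_mod_cast hd
  obtain ⟨zM, hM⟩ := Finite.exists_max v
  obtain ⟨zm, hm⟩ := Finite.exists_min v
  have hM0 : 0 ≤ v zM := by
    by_contra hcon
    push Not at hcon
    have : ∑ z, v z < 0 := Finset.sum_neg (fun z _ => (hM z).trans_lt hcon) Finset.univ_nonempty
    linarith
  have hm0 : v zm ≤ 0 := by
    by_contra hcon
    push Not at hcon
    have : 0 < ∑ z, v z := Finset.sum_pos (fun z _ => hcon.trans_le (hm z)) Finset.univ_nonempty
    linarith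
  obtain ⟨D, hD⟩ : ∃ D, D = v zM - v zm := ⟨_, rfl⟩
  have hD2 : 1 ≤ 4 * d * D ^ 2 := by
    have h1 : nsq v ≤ ∑ _z : Fin d, D ^ 2 := by
      refine Finset.sum_le_sum fun z _ => ?_
      have h2 := hM z
      have h3 := hm z
      rw [hD]
      apply sq_le_sq'
      · linarith
      · linarith
    rw [Finset.sum_const, Finset.card_univ, Fintype.card_fin, nsmul_eq_mul] at h1
    linarith
  have hDpos : 0 < D := by
    have h1 : 0 ≤ D := by
      rw [hD]
      linarith
    rcases h1.eq_or_lt with h2 | h2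
    · rw [← h2] at hD2
      norm_num at hD2
    · exact h2
  obtain ⟨δ, hδ⟩ : ∃ δ, δ = D / d := ⟨_, rfl⟩
  have hδpos : 0 < δ := by
    rw [hδ]
    positivity
  have hδD : d * δ = D := by
    rw [hδ]
    field_simp
  have hδ2 : 1 ≤ 4 * (d : ℝ) ^ 3 * δ ^ 2 := by
    have h1 : 4 * (d : ℝ) ^ 3 * δ ^ 2 = 4 * d * (d * δ) ^ 2 := by ring
    rw [h1, hδD]
    exact hD2
  let c : Fin d → ℕ := fun z => ⌈(v z - v zm) / δ⌉₊
  have hcm : c zm = 0 := by simp [c]
  have hcM : c zM = d := by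
    have h1 : (v zM - v zm) / δ = d := by
      rw [← hD, ← hδD]
      field_simp
    simp only [c]
    rw [h1, Nat.ceil_natCast]
  have hcle : ∀ z, c z ≤ d := by
    intro z
    apply Nat.ceil_le.2
    rw [div_le_iff₀ hδpos, hδD, hD]
    have := hM z
    linarith
  obtain ⟨j, hj1, hj2⟩ := Finset.exists_mem_notMem_of_card_lt_card
    (s := Finset.univ.image c) (t := Finset.range (d + 1)) (by
      rw [Finset.card_range]
      refine (Finset.card_image_le).trans_lt ?_
      rw [Finset.card_univ, Fintype.card_fin]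
      omega)
  have hj : ∀ z, c z ≠ j := by
    intro z hz
    apply hj2
    rw [← hz]
    exact Finset.mem_image_of_mem c (Finset.mem_univ z)
  have hj0 : 0 < j := Nat.pos_of_ne_zero fun h => hj zm (by rw [hcm, h])
  have hjd : j < d := by
    have h1 := Finset.mem_range.1 hj1
    have h2 : j ≠ d := fun h => hj zM (by rw [hcM, h])
    omega
  refine ⟨Finset.univ.filter fun z => j < c z, ⟨zM, ?_⟩, ⟨zm, ?_⟩, ?_⟩
  · rw [Finset.mem_filter, hcM]
    exact ⟨Finset.mem_univ _, hjd⟩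
  · rw [Finset.mem_filter, hcm]
    omega
  · intro z hz y hy
    rw [Finset.mem_filter] at hz hy
    have h1 : (j : ℝ) < (v z - v zm) / δ := Nat.lt_ceil.1 hz.2
    have h2 : c y ≤ j - 1 := by
      have h3 : ¬ j < c y := fun h => hy ⟨Finset.mem_univ _, h⟩
      have h4 := hj y
      omega
    have h3 : (v y - v zm) / δ ≤ ((j - 1 : ℕ) : ℝ) := Nat.ceil_le.1 h2
    have h4 : ((j - 1 : ℕ) : ℝ) = j - 1 := by
      rw [Nat.cast_sub hj0]
      norm_num
    rw [h4] at h3
    rw [lt_div_iff₀ hδpos] at h1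
    rw [div_le_iff₀ hδpos] at h3
    have h5 : δ ≤ v z - v y := by linarith
    have h6 : δ ^ 2 ≤ (v z - v y) ^ 2 := pow_le_pow_left₀ hδpos.le h5 2
    refine hδ2.trans ?_
    exact mul_le_mul_of_nonneg_left h6 (by positivity)

/-- A function with zero sum and not too small norm which is displaced very little: its group is
not transitive. -/
theorem Win.level (W : Win Γ (Equiv.Perm (Fin d)) m) (s : ℕ) (hs0 : 0 < s) (hs : s ≤ m)
    (v : Fin d → ℝ) (γ : Γ) (hv : ∑ z, v z = 0) (hn : 1 / 4 ≤ nsq v)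
    (hE : 16 * (d : ℝ) ^ 3 * W.E s v γ < 1 / 4) : ¬ Tra (W.R 0 s γ) := by
  classical
  have hd : 0 < d := by
    by_contra hcon
    have h1 : d = 0 := by omega
    subst h1
    have h2 : nsq v = 0 := by simp [nsq]
    rw [h2] at hn
    norm_num at hn
  obtain ⟨L, ⟨z₁, hz₁⟩, ⟨z₂, hz₂⟩, hL⟩ := exists_gap hd v hv hn
  let K : Subgroup (Equiv.Perm (Fin d)) :=
    { carrier := {h | ∀ z, h z ∈ L ↔ z ∈ L}
      mul_mem' := by
        intro a b ha hb z
        rw [Equiv.Perm.mul_apply, ha, hb]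
      one_mem' := fun z => Iff.rfl
      inv_mem' := by
        intro a ha z
        have h1 := ha (a⁻¹ z)
        rw [show a (a⁻¹ z) = z from a.apply_symm_apply z] at h1
        exact h1.symm }
  have hKmem : ∀ h : Equiv.Perm (Fin d), h ∈ K ↔ ∀ z, h z ∈ L ↔ z ∈ L := fun _ => Iff.rfl
  have hnot : ∀ h : Equiv.Perm (Fin d), h ∉ K →
      1 ≤ 4 * (d : ℝ) ^ 3 * nsq (fun z => act h v z - v z) := by
    intro h hh
    rw [hKmem] at hh
    push Not at hh
    obtain ⟨z, hz⟩ := hh
    have h1 : (act h v (h z) - v (h z)) ^ 2 ≤ nsq (fun z => act h v z - v z) :=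
      Finset.single_le_sum (f := fun y => (act h v y - v y) ^ 2) (fun y _ => sq_nonneg _)
        (Finset.mem_univ (h z))
    have h2 : act h v (h z) = v z := by
      exact congrArg v (h.symm_apply_apply z)
    rw [h2] at h1
    have h3 : 1 ≤ 4 * (d : ℝ) ^ 3 * (v z - v (h z)) ^ 2 := by
      rcases hz with ⟨ha, hb⟩ | ⟨ha, hb⟩
      · have h4 := hL (h z) ha z hb
        have h5 : (v z - v (h z)) ^ 2 = (v (h z) - v z) ^ 2 := by ring
        rw [h5]
        exact h4
      · exact hL z hb (h z) ha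
    exact h3.trans (mul_le_mul_of_nonneg_left h1 (by positivity))
  intro hTra
  have hle : W.R 0 s γ ≤ K := by
    by_contra hcon
    have h1 := W.mass 0 s hs0 hs K 1 γ hcon
    have h2 : avg (W.G 0 s) (fun x => 1 - (if W.a 0 x * (1 : Equiv.Perm (Fin d))⁻¹ ∈ K then
        (1 : ℝ) else 0)) γ ≤ avg (W.G 0 s) (fun x => 4 * (d : ℝ) ^ 3 *
        nsq (fun z => act (W.a 0 x) v z - v z)) γ := by
      refine avg_le _ _ _ _ fun δ _ => ?_
      rw [inv_one, mul_one]
      split_ifs with h3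
      · rw [sub_self]
        have : 0 ≤ nsq (fun z => act (W.a 0 (γ * δ)) v z - v z) :=
          Finset.sum_nonneg fun _ _ => sq_nonneg _
        positivity
      · rw [sub_zero]
        exact hnot _ h3
    rw [avg_sub, avg_const, avg_mul] at h2
    change _ ≤ 4 * (d : ℝ) ^ 3 * W.E s v γ at h2
    linarith
  obtain ⟨g, hg, hgz⟩ := hTra z₁ z₂
  have h1 := (hKmem g).1 (hle hg) z₁
  rw [hgz] at h1
  exact hz₂ (h1.2 hz₁)

end Pool.Agent.PWL
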