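import Pool.Agent.PWL.Stages
import Pool.Agent.PWL.Level
import Pool.Agent.PWL.Tra

/-!
# PWL: the spectral gap
-/

namespace Pool.Agent.PWL

variable {Γ : Type*} [Group Γ] [Fintype Γ] {d m : ℕ}

private theorem nsq_nonneg98 (v : Fin d → ℝ) : 0 ≤ nsq v :=
  Finset.sum_nonneg fun _ _ => sq_nonneg _

private theorem sqrt_nsq98 (v : Fin d → ℝ) :
    √(nsq v) = ‖(WithLp.toLp 2 v : EuclideanSpace ℝ (Fin d))‖ := by
  rw [EuclideanSpace.norm_eq]
  congr 1
  unfold nsq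
  exact Finset.sum_congr rfl fun z _ => by rw [Real.norm_eq_abs, sq_abs]

private theorem tri98 (u w : Fin d → ℝ) :
    √(nsq w) ≤ √(nsq u) + √(nsq (fun z => u z - w z)) := by
  rw [sqrt_nsq98, sqrt_nsq98, sqrt_nsq98]
  have h := norm_le_norm_add_norm_sub' (WithLp.toLp 2 w : EuclideanSpace ℝ (Fin d))
    (WithLp.toLp 2 u)
  rw [norm_sub_rev] at h
  exact h

private theorem nsq_smul98 (c : ℝ) (v : Fin d → ℝ) : nsq (fun z => c * v z) = c ^ 2 * nsq v := by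
  unfold nsq
  rw [Finset.mul_sum]
  exact Finset.sum_congr rfl fun z _ => mul_pow _ _ _

/-- The spectral gap. -/
theorem Win.gapG (W : Win Γ (Equiv.Perm (Fin d)) m) (k s : ℕ) (hk : 0 < k) (hd : d ≤ 2 ^ k)
    (hs : 262 * k + 24 ≤ s) (hm : s ≤ m) (v : Fin d → ℝ) (hv : ∑ z, v z = 0) (γ : Γ)
    (hT : Tra (W.R 0 s γ)) : nsq v ≤ 400 * W.E s v γ := by
  classical
  by_contra hcon
  push Not at hcon
  have hEnn : ∀ (r : ℕ) (u : Fin d → ℝ) (x : Γ), 0 ≤ W.E r u x := by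
    intro r u x
    unfold Win.E
    exact avg_nonneg _ _ _ fun δ _ => nsq_nonneg98 _
  have hN : 0 < nsq v := by
    have := hEnn s v γ
    linarith
  obtain ⟨c, hc⟩ : ∃ c, c = 1 / √(nsq v) := ⟨_, rfl⟩
  have hc2 : c ^ 2 * nsq v = 1 := by
    rw [hc, div_pow, one_pow, Real.sq_sqrt hN.le]
    field_simp
  have hcpos : 0 < c ^ 2 := by
    rw [hc]
    positivity
  obtain ⟨w, hw⟩ : ∃ w : Fin d → ℝ, w = fun z => c * v z := ⟨_, rfl⟩
  have hwn : nsq w = 1 := by rw [hw, nsq_smul98, hc2]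
  have hws : ∑ z, w z = 0 := by rw [hw, ← Finset.mul_sum, hv, mul_zero]
  have hwE : W.E s w γ = c ^ 2 * W.E s v γ := by
    unfold Win.E
    rw [← avg_mul, hw]
    refine avg_congr _ _ _ γ fun δ _ => ?_
    rw [← nsq_smul98]
    congr 1
    funext z
    unfold act
    ring
  have hwE' : W.E s w γ < 1 / 400 := by
    rw [hwE]
    have := mul_lt_mul_of_pos_left hcon hcpos
    linarith
  obtain ⟨V, h1, h2, h3, h4⟩ := W.stages (2 * k) s (by omega) hm w γ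
  obtain ⟨s', hs'⟩ : ∃ s', s' = s - 128 * (2 * k) := ⟨_, rfl⟩
  rw [← hs'] at h1 h3
  have h5 := W.trans s' s (by omega) hm γ hT
  -- the three bounds
  have b1 : avg (W.G 0 s) (fun x => √(nsq (fun z => V x z - w z))) γ ≤ 1 / 10 := by
    refine h4.trans ?_
    have h6 : √(W.E s w γ) ≤ 1 / 20 := by
      rw [show (1 / 20 : ℝ) = √(1 / 400) by
        rw [show (1 / 400 : ℝ) = (1 / 20) ^ 2 by norm_num, Real.sqrt_sq (by norm_num)]]
      exact Real.sqrt_le_sqrt hwE'.le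
    have h7 : (2 - 2 / 2 ^ (2 * k) : ℝ) ≤ 2 := by
      have : (0 : ℝ) ≤ 2 / 2 ^ (2 * k) := by positivity
      linarith
    calc (2 - 2 / 2 ^ (2 * k)) * √(W.E s w γ) ≤ 2 * √(W.E s w γ) :=
          mul_le_mul_of_nonneg_right h7 (Real.sqrt_nonneg _)
      _ ≤ 2 * (1 / 20) := mul_le_mul_of_nonneg_left h6 (by norm_num)
      _ = 1 / 10 := by norm_num
  have b2 : 64 * (d : ℝ) ^ 3 * avg (W.G 0 s) (fun x => W.E s' (V x) x) γ ≤ 8 / 100 := by
    have h6 : (d : ℝ) ^ 3 ≤ 8 ^ k := by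
      have h7 : (d : ℝ) ≤ 2 ^ k := by exact_mod_cast hd
      calc (d : ℝ) ^ 3 ≤ (2 ^ k) ^ 3 := pow_le_pow_left₀ (Nat.cast_nonneg _) h7 3
        _ = 8 ^ k := by rw [← pow_mul, mul_comm, pow_mul]; norm_num
    have h7 : avg (W.G 0 s) (fun x => W.E s' (V x) x) γ ≤ 1 / 400 / 16 ^ k := by
      refine h3.trans ?_
      have h8 : (4 : ℝ) ^ (2 * k) = 16 ^ k := by rw [pow_mul]; norm_num
      rw [h8]
      exact div_le_div_of_nonneg_right hwE'.le (by positivity)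
    have h9 : (16 : ℝ) ^ k = 8 ^ k * 2 ^ k := by rw [← mul_pow]; norm_num
    have h10 : (2 : ℝ) ≤ 2 ^ k := by
      calc (2 : ℝ) = 2 ^ 1 := (pow_one _).symm
        _ ≤ 2 ^ k := pow_le_pow_right₀ (by norm_num) hk
    have h11 : (0 : ℝ) < 8 ^ k := by positivity
    calc 64 * (d : ℝ) ^ 3 * avg (W.G 0 s) (fun x => W.E s' (V x) x) γ
        ≤ 64 * 8 ^ k * (1 / 400 / 16 ^ k) := by
          refine mul_le_mul (mul_le_mul_of_nonneg_left h6 (by norm_num)) h7 ?_ (by positivity)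
          exact avg_nonneg _ _ _ fun δ _ => hEnn _ _ _
      _ = 16 / 100 / 2 ^ k := by
          rw [h9]
          field_simp
          norm_num
      _ ≤ 8 / 100 := by
          rw [div_le_iff₀ (by positivity)]
          linarith
  have b3 : avg (W.G 0 s) (fun x => if Tra (W.R 0 s' x) then (0 : ℝ) else 1) γ ≤ 1 / 16 := by
    have h6 : (7 : ℝ) ^ s' * d ≤ 8 ^ s' * (1 / 16) := by
      obtain ⟨e, he⟩ : ∃ e, s' = 6 * k + 24 + e := ⟨s' - (6 * k + 24), by omega⟩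
      have h7 : (d : ℝ) ≤ 2 ^ k := by exact_mod_cast hd
      have h8 : (7 : ℝ) ^ (6 * k) * 2 ^ k ≤ 8 ^ (6 * k) := by
        rw [pow_mul, pow_mul, ← mul_pow]
        exact pow_le_pow_left₀ (by norm_num) (by norm_num) k
      have h9 : (7 : ℝ) ^ e ≤ 8 ^ e := pow_le_pow_left₀ (by norm_num) (by norm_num) e
      have h10 : (7 : ℝ) ^ 24 ≤ 8 ^ 24 * (1 / 16) := by norm_num
      rw [he, pow_add, pow_add, pow_add, pow_add]
      calc (7 : ℝ) ^ (6 * k) * 7 ^ 24 * 7 ^ e * d ≤ 7 ^ (6 * k) * 7 ^ 24 * 7 ^ e * 2 ^ k :=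
            mul_le_mul_of_nonneg_left h7 (by positivity)
        _ = (7 ^ (6 * k) * 2 ^ k) * 7 ^ 24 * 7 ^ e := by ring
        _ ≤ 8 ^ (6 * k) * (8 ^ 24 * (1 / 16)) * 8 ^ e := by
            refine mul_le_mul (mul_le_mul h8 h10 (by positivity) (by positivity)) h9
              (by positivity) (by positivity)
        _ = _ := by ring
    have h7 : (0 : ℝ) < 8 ^ s' := by positivity
    exact le_of_mul_le_mul_left (h5.trans h6) h7
  -- a good point
  have hgood : ∃ δ ∈ W.G 0 s, 0 < 1 - (2 * √(nsq (fun z => V (γ * δ) z - w z)) +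
      64 * (d : ℝ) ^ 3 * W.E s' (V (γ * δ)) (γ * δ) +
      if Tra (W.R 0 s' (γ * δ)) then (0 : ℝ) else 1) := by
    refine exists_of_avg_pos (W.G 0 s) (fun x => 1 - (2 * √(nsq (fun z => V x z - w z)) +
      64 * (d : ℝ) ^ 3 * W.E s' (V x) x + if Tra (W.R 0 s' x) then (0 : ℝ) else 1)) γ ?_
    rw [avg_sub (W.G 0 s) (fun _ => 1) (fun x => 2 * √(nsq (fun z => V x z - w z)) +
      64 * (d : ℝ) ^ 3 * W.E s' (V x) x + if Tra (W.R 0 s' x) then (0 : ℝ) else 1), avg_const,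
      avg_add (W.G 0 s) (fun x => 2 * √(nsq (fun z => V x z - w z)) +
      64 * (d : ℝ) ^ 3 * W.E s' (V x) x), avg_add (W.G 0 s)
      (fun x => 2 * √(nsq (fun z => V x z - w z))), avg_mul, avg_mul]
    linarith
  obtain ⟨δ, hδ, hpos⟩ := hgood
  obtain ⟨x, hx⟩ : ∃ x, x = γ * δ := ⟨_, rfl⟩
  rw [← hx] at hpos
  have g1 : 0 ≤ √(nsq (fun z => V x z - w z)) := Real.sqrt_nonneg _
  have g2 : 0 ≤ 64 * (d : ℝ) ^ 3 * W.E s' (V x) x := by
    have := hEnn s' (V x) x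
    positivity
  by_cases hTx : Tra (W.R 0 s' x)
  · rw [if_pos hTx] at hpos
    refine W.level s' (by omega) (by omega) (V x) x ((h2 x).trans hws) ?_ (by linarith) hTx
    have h6 := tri98 (V x) w
    rw [hwn, Real.sqrt_one] at h6
    have h7 : 1 / 2 ≤ √(nsq (V x)) := by linarith
    calc (1 / 4 : ℝ) = (1 / 2) ^ 2 := by norm_num
      _ ≤ √(nsq (V x)) ^ 2 := pow_le_pow_left₀ (by norm_num) h7 2
      _ = nsq (V x) := Real.sq_sqrt (nsq_nonneg98 _)
  · rw [if_neg hTx] at hpos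
    linarith

end Pool.Agent.PWL
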