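import Pool.Agent.PWL.Stage0

/-!
# PWL: one stage, part 1: the mean does not move `v` more than a curve
-/

namespace Pool.Agent.PWL

variable {Γ : Type*} [Group Γ] [Fintype Γ] {d m : ℕ}

omit [Fintype Γ] in
theorem Win.nsq_mean_le (W : Win Γ (Equiv.Perm (Fin d)) m) (p n : ℕ) (hn : 0 < n)
    (v : Fin d → ℝ) (x : Γ) :
    nsq (fun z => W.mean p n v x z - v z) ≤
      (1 / (n : ℝ)) * ∑ j ∈ Finset.range n, nsq (fun z => act (W.a (p + j) x) v z - v z) := by
  have hn' : (0 : ℝ) < n := by exact_mod_cast hn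
  unfold nsq
  rw [Finset.sum_comm, Finset.mul_sum]
  refine Finset.sum_le_sum fun z _ => ?_
  have e : W.mean p n v x z - v z =
      (∑ j ∈ Finset.range n, (act (W.a (p + j) x) v z - v z)) / n := by
    unfold Win.mean
    rw [Finset.sum_sub_distrib, Finset.sum_const, Finset.card_range, nsmul_eq_mul]
    field_simp
  show (W.mean p n v x z - v z) ^ 2 ≤
    1 / (n : ℝ) * ∑ j ∈ Finset.range n, (act (W.a (p + j) x) v z - v z) ^ 2
  rw [e, div_pow, div_le_iff₀ (by positivity)]
  have h := sq_sum_le_card_mul_sum_sq (s := Finset.range n)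
    (f := fun j => act (W.a (p + j) x) v z - v z)
  rw [Finset.card_range] at h
  calc (∑ j ∈ Finset.range n, (act (W.a (p + j) x) v z - v z)) ^ 2
      ≤ (n : ℝ) * ∑ j ∈ Finset.range n, (act (W.a (p + j) x) v z - v z) ^ 2 := h
    _ = 1 / (n : ℝ) * (∑ j ∈ Finset.range n, (act (W.a (p + j) x) v z - v z) ^ 2) * (n : ℝ) ^ 2 := by
      field_simp

/-- The mean does not move `v` more than a curve. -/
theorem Win.stage1 (W : Win Γ (Equiv.Perm (Fin d)) m) (s n : ℕ) (hn : 0 < n) (hs : 2 * n < s)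
    (hm : s ≤ m) (v : Fin d → ℝ) (γ : Γ) :
    avg (W.G 0 s) (fun x => nsq (fun z => W.mean (s - 2 * n) n v x z - v z)) γ ≤ W.E s v γ := by
  have hn' : (0 : ℝ) < n := by exact_mod_cast hn
  refine (avg_le (W.G 0 s) _ (fun x => (1 / (n : ℝ)) * ∑ j ∈ Finset.range n,
    nsq (fun z => act (W.a (s - 2 * n + j) x) v z - v z)) γ
    (fun δ _ => W.nsq_mean_le (s - 2 * n) n hn v (γ * δ))).trans (le_of_eq ?_)
  rw [avg_mul, avg_sum]
  have h : ∀ j ∈ Finset.range n,
      avg (W.G 0 s) (fun x => nsq (fun z => act (W.a (s - 2 * n + j) x) v z - v z)) γ =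
        W.E s v γ := by
    intro j hj
    rw [Finset.mem_range] at hj
    exact W.E_eq s (s - 2 * n + j) (by omega) hm v γ
  rw [Finset.sum_congr rfl h, Finset.sum_const, Finset.card_range, nsmul_eq_mul]
  field_simp

end Pool.Agent.PWL
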