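import Pool.Agent.PWL.Stage0

/-!
# PWL: one stage of the improvement of an almost invariant function (displacement of the mean)
-/

namespace Pool.Agent.PWL

variable {Γ : Type*} [Group Γ] [Fintype Γ] {d m : ℕ}

/-- inner product -/
private def ip {d : ℕ} (v w : Fin d → ℝ) : ℝ := ∑ z, v z * w z

private theorem ip_comm {d : ℕ} (v w : Fin d → ℝ) : ip v w = ip w v := by
  unfold ip
  exact Finset.sum_congr rfl fun z _ => mul_comm _ _

private theorem ip_act {d : ℕ} (h : Equiv.Perm (Fin d)) (v w : Fin d → ℝ) :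
    ip (act h v) (act h w) = ip v w := by
  unfold ip act
  exact Equiv.sum_comp h⁻¹ (fun z => v z * w z)

private theorem act_mul {d : ℕ} (g h : Equiv.Perm (Fin d)) (v : Fin d → ℝ) :
    act g (act h v) = act (g * h) v := by
  funext z
  unfold act
  rw [mul_inv_rev]
  rfl

private theorem ip_self {d : ℕ} (v : Fin d → ℝ) : ip v v = nsq v := by
  unfold ip nsq
  exact Finset.sum_congr rfl fun z _ => (sq _).symm

private theorem nsq_sub {d : ℕ} (v w : Fin d → ℝ) :
    nsq (fun z => v z - w z) = ip v v + ip w w - 2 * ip v w := by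
  unfold nsq ip
  rw [Finset.mul_sum, ← Finset.sum_add_distrib, ← Finset.sum_sub_distrib]
  refine Finset.sum_congr rfl fun z _ => ?_
  ring

private theorem ip_mean {d : ℕ} (n : ℕ) (A B : ℕ → Fin d → ℝ) :
    ip (fun z => (∑ i ∈ Finset.range n, A i z) / n) (fun z => (∑ i ∈ Finset.range n, B i z) / n) =
      1 / (n : ℝ) ^ 2 * ∑ i ∈ Finset.range n, ∑ k ∈ Finset.range n, ip (A i) (B k) := by
  unfold ip
  have h : ∀ i ∈ Finset.range n, ∑ k ∈ Finset.range n, ∑ z, A i z * B k z =
      ∑ z, ∑ k ∈ Finset.range n, A i z * B k z := fun i _ => Finset.sum_comm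
  rw [Finset.sum_congr rfl h, Finset.sum_comm, Finset.mul_sum]
  refine Finset.sum_congr rfl fun z _ => ?_
  rw [div_mul_div_comm, Finset.sum_mul_sum]
  ring

private theorem mean_diff (G : Subgroup Γ) (γ : Γ) (n : ℕ) (hn : 0 < n)
    (A B : ℕ → Γ → Fin d → ℝ) (N g : ℝ)
    (hAA : ∀ i < n, ∀ k < n, avg G (fun x => ip (A i x) (A k x)) γ = if i = k then N else g)
    (hBB : ∀ i < n, ∀ k < n, avg G (fun x => ip (B i x) (B k x)) γ = if i = k then N else g)
    (hAB : ∀ i < n, ∀ k < n, avg G (fun x => ip (A i x) (B k x)) γ = g) :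
    avg G (fun x => nsq (fun z => (∑ i ∈ Finset.range n, A i x z) / n -
      (∑ i ∈ Finset.range n, B i x z) / n)) γ = 2 * (N - g) / n := by
  have hn' : (n : ℝ) ≠ 0 := by exact_mod_cast hn.ne'
  have key : ∀ (C D : ℕ → Γ → Fin d → ℝ),
      avg G (fun x => ip (fun z => (∑ i ∈ Finset.range n, C i x z) / n)
        (fun z => (∑ i ∈ Finset.range n, D i x z) / n)) γ =
      1 / (n : ℝ) ^ 2 * ∑ i ∈ Finset.range n, ∑ k ∈ Finset.range n,
        avg G (fun x => ip (C i x) (D k x)) γ := by
    intro C D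
    have h1 : (fun x => ip (fun z => (∑ i ∈ Finset.range n, C i x z) / n)
        (fun z => (∑ i ∈ Finset.range n, D i x z) / n)) =
        fun x => 1 / (n : ℝ) ^ 2 * ∑ i ∈ Finset.range n, ∑ k ∈ Finset.range n,
          ip (C i x) (D k x) := by
      funext x
      exact ip_mean n (fun i => C i x) (fun i => D i x)
    rw [h1, avg_mul, avg_sum]
    congr 1
    refine Finset.sum_congr rfl fun i _ => ?_
    rw [avg_sum]
  have hdiag : ∀ (C : ℕ → Γ → Fin d → ℝ),
      (∀ i < n, ∀ k < n, avg G (fun x => ip (C i x) (C k x)) γ = if i = k then N else g) →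
      avg G (fun x => ip (fun z => (∑ i ∈ Finset.range n, C i x z) / n)
        (fun z => (∑ i ∈ Finset.range n, C i x z) / n)) γ = g + (N - g) / n := by
    intro C hC
    rw [key]
    have h2 : ∀ i ∈ Finset.range n, ∑ k ∈ Finset.range n,
        avg G (fun x => ip (C i x) (C k x)) γ = n * g + (N - g) := by
      intro i hi
      have h3 : ∀ k ∈ Finset.range n, avg G (fun x => ip (C i x) (C k x)) γ =
          g + (if i = k then (N - g) else 0) := by
        intro k hk
        rw [hC i (Finset.mem_range.1 hi) k (Finset.mem_range.1 hk)]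
        split_ifs <;> ring
      rw [Finset.sum_congr rfl h3, Finset.sum_add_distrib, Finset.sum_const, Finset.card_range,
        nsmul_eq_mul, Finset.sum_ite_eq, if_pos hi]
    rw [Finset.sum_congr rfl h2, Finset.sum_const, Finset.card_range, nsmul_eq_mul]
    field_simp
    try ring
  have hoff : avg G (fun x => ip (fun z => (∑ i ∈ Finset.range n, A i x z) / n)
      (fun z => (∑ i ∈ Finset.range n, B i x z) / n)) γ = g := by
    rw [key]
    have h2 : ∀ i ∈ Finset.range n, ∑ k ∈ Finset.range n,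
        avg G (fun x => ip (A i x) (B k x)) γ = n * g := by
      intro i hi
      rw [Finset.sum_congr rfl fun k hk =>
        hAB i (Finset.mem_range.1 hi) k (Finset.mem_range.1 hk), Finset.sum_const,
        Finset.card_range, nsmul_eq_mul]
    rw [Finset.sum_congr rfl h2, Finset.sum_const, Finset.card_range, nsmul_eq_mul]
    field_simp
  have hfin : (fun x => nsq (fun z => (∑ i ∈ Finset.range n, A i x z) / n -
      (∑ i ∈ Finset.range n, B i x z) / n)) = fun x =>
      (ip (fun z => (∑ i ∈ Finset.range n, A i x z) / n)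
        (fun z => (∑ i ∈ Finset.range n, A i x z) / n) +
       ip (fun z => (∑ i ∈ Finset.range n, B i x z) / n)
        (fun z => (∑ i ∈ Finset.range n, B i x z) / n)) -
      2 * ip (fun z => (∑ i ∈ Finset.range n, A i x z) / n)
        (fun z => (∑ i ∈ Finset.range n, B i x z) / n) := by
    funext x
    exact nsq_sub _ _
  rw [hfin, avg_sub, avg_add, avg_mul, hdiag A hAA, hdiag B hBB, hoff]
  ring

private theorem pair_eq (W : Win Γ (Equiv.Perm (Fin d)) m) (s : ℕ) (hs : s ≤ m) (v : Fin d → ℝ)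
    (γ : Γ) (j k : ℕ) (hjk : j < k) (hk : k < s) :
    avg (W.G 0 s) (fun x => ip (act (W.a j x) v) (act (W.a k x) v)) γ =
      avg (W.G 0 s) (fun x => ip (act (W.a 0 x) v) (act (W.a 1 x) v)) γ := by
  obtain ⟨τ, hτ, h⟩ := W.bring 0 j (Nat.zero_le _) (by omega)
  have hτ' : τ ∈ W.G 0 s := W.mono 0 (j + 1) 0 s le_rfl (by omega) hs hτ
  obtain ⟨σ, hσ, h'⟩ := W.bring 1 k (by omega) (by omega)
  have hσ' : σ ∈ W.G 0 s := W.mono 1 (k + 1) 0 s (by omega) (by omega) hs hσ
  have e1 : avg (W.G 0 s) (fun x => ip (act (W.a j x) v) (act (W.a k x) v)) γ =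
      avg (W.G 0 s) (fun x => ip (act (W.a 0 x) v) (act (W.a k x) v)) γ := by
    rw [← avg_shift (W.G 0 s) (fun x => ip (act (W.a 0 x) v) (act (W.a k x) v)) γ τ hτ']
    have : ∀ x, W.a k (x * τ) = W.a k x := fun x => (W.fix 0 (j + 1) k x τ hτ (Or.inr (by omega))).1
    simp only [h, this]
  have e2 : avg (W.G 0 s) (fun x => ip (act (W.a 0 x) v) (act (W.a k x) v)) γ =
      avg (W.G 0 s) (fun x => ip (act (W.a 0 x) v) (act (W.a 1 x) v)) γ := by
    rw [← avg_shift (W.G 0 s) (fun x => ip (act (W.a 0 x) v) (act (W.a 1 x) v)) γ σ hσ']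
    have : ∀ x, W.a 0 (x * σ) = W.a 0 x :=
      fun x => (W.fix 1 (k + 1) 0 x σ hσ (Or.inl (by omega))).1
    simp only [h', this]
  rw [e1, e2]

private theorem pair_mul (W : Win Γ (Equiv.Perm (Fin d)) m) (s : ℕ) (hs : s ≤ m) (v : Fin d → ℝ)
    (γ : Γ) (j k : ℕ) (hj : 0 < j) (hjk : j < k) (hk : k < s) :
    avg (W.G 0 s) (fun x => ip (act (W.a 0 x) (act (W.a j x) v)) (act (W.a k x) v)) γ =
      avg (W.G 0 s) (fun x => ip (act (W.a 0 x) v) (act (W.a 1 x) v)) γ := by
  obtain ⟨τ, hτ, h⟩ := W.mv1 0 j hj (by omega)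
  have hτ' : τ ∈ W.G 0 s := W.mono 0 (j + 1) 0 s le_rfl (by omega) hs hτ
  rw [← pair_eq W s hs v γ 0 k (by omega) hk,
    ← avg_shift (W.G 0 s) (fun x => ip (act (W.a 0 x) v) (act (W.a k x) v)) γ τ hτ']
  have : ∀ x, W.a k (x * τ) = W.a k x := fun x => (W.fix 0 (j + 1) k x τ hτ (Or.inr (by omega))).1
  simp only [h, this, act_mul]

/-- The mean is displaced less. -/
theorem Win.stage2 (W : Win Γ (Equiv.Perm (Fin d)) m) (s n : ℕ) (hn : 0 < n) (hs : 2 * n < s)
    (hm : s ≤ m) (v : Fin d → ℝ) (γ : Γ) :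
    avg (W.G 0 s) (fun x => W.E (s - 2 * n) (W.mean (s - 2 * n) n v x) x) γ ≤
      16 / n * W.E s v γ := by
  have hn' : (0 : ℝ) < n := by exact_mod_cast hn
  set g := avg (W.G 0 s) (fun x => ip (act (W.a 0 x) v) (act (W.a 1 x) v)) γ with hg
  -- the same handles
  have hself : ∀ j, avg (W.G 0 s) (fun x => ip (act (W.a j x) v) (act (W.a j x) v)) γ = nsq v := by
    intro j
    have : (fun x => ip (act (W.a j x) v) (act (W.a j x) v)) = fun _ : Γ => nsq v := by
      funext x
      rw [ip_act, ip_self]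
    rw [this, avg_const]
  have hpq : ∀ p, p + n ≤ s → ∀ i < n, ∀ k < n,
      avg (W.G 0 s) (fun x => ip (act (W.a (p + i) x) v) (act (W.a (p + k) x) v)) γ =
        if i = k then nsq v else g := by
    intro p hp i hi k hk
    rcases lt_trichotomy i k with h | h | h
    · rw [if_neg h.ne]
      exact pair_eq W s hm v γ (p + i) (p + k) (by omega) (by omega)
    · subst h
      rw [if_pos rfl]
      exact hself (p + i)
    · rw [if_neg h.ne']
      refine Eq.trans ?_ (pair_eq W s hm v γ (p + k) (p + i) (by omega) (by omega))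
      congr 1
      funext x
      exact ip_comm _ _
  have d1 := mean_diff (W.G 0 s) γ n hn (fun i x => act (W.a (s - 2 * n + i) x) v)
    (fun i x => act (W.a (s - n + i) x) v) (nsq v) g (hpq (s - 2 * n) (by omega))
    (hpq (s - n) (by omega))
    (fun i hi k hk => pair_eq W s hm v γ (s - 2 * n + i) (s - n + k) (by omega) (by omega))
  have d2 := mean_diff (W.G 0 s) γ n hn
    (fun i x => act (W.a 0 x) (act (W.a (s - 2 * n + i) x) v))
    (fun i x => act (W.a (s - n + i) x) v) (nsq v) g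
    (by
      intro i hi k hk
      rw [← hpq (s - 2 * n) (by omega) i hi k hk]
      congr 1
      funext x
      exact ip_act _ _ _)
    (hpq (s - n) (by omega))
    (fun i hi k hk => pair_mul W s hm v γ (s - 2 * n + i) (s - n + k) (by omega) (by omega)
      (by omega))
  -- the displacement of a pair
  have hE : 2 * (nsq v - g) ≤ 4 * W.E s v γ := by
    have h1 : avg (W.G 0 s) (fun x => nsq (fun z => act (W.a 0 x) v z - act (W.a 1 x) v z)) γ =
        2 * (nsq v - g) := by
      have : (fun x => nsq (fun z => act (W.a 0 x) v z - act (W.a 1 x) v z)) = fun x =>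
          (ip (act (W.a 0 x) v) (act (W.a 0 x) v) + ip (act (W.a 1 x) v) (act (W.a 1 x) v)) -
            2 * ip (act (W.a 0 x) v) (act (W.a 1 x) v) := by
        funext x
        exact nsq_sub _ _
      rw [this, avg_sub, avg_add, avg_mul, hself 0, hself 1]
      ring
    have h2 : avg (W.G 0 s) (fun x => nsq (fun z => act (W.a 0 x) v z - act (W.a 1 x) v z)) γ ≤
        avg (W.G 0 s) (fun x => 2 * nsq (fun z => act (W.a 0 x) v z - v z) +
          2 * nsq (fun z => act (W.a 1 x) v z - v z)) γ := by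
      refine avg_le _ _ _ _ fun δ _ => ?_
      unfold nsq
      rw [Finset.mul_sum, Finset.mul_sum, ← Finset.sum_add_distrib]
      refine Finset.sum_le_sum fun z _ => ?_
      nlinarith [sq_nonneg ((act (W.a 0 (γ * δ)) v z - v z) + (act (W.a 1 (γ * δ)) v z - v z))]
    rw [h1, avg_add, avg_mul, avg_mul, W.E_eq s 0 (by omega) hm v γ,
      W.E_eq s 1 (by omega) hm v γ] at h2
    linarith
  -- the left side
  have hL : avg (W.G 0 s) (fun x => W.E (s - 2 * n) (W.mean (s - 2 * n) n v x) x) γ =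
      avg (W.G 0 s) (fun x => nsq (fun z => act (W.a 0 x) (W.mean (s - 2 * n) n v x) z -
        W.mean (s - 2 * n) n v x z)) γ := by
    rw [← avg_avg (W.G 0 (s - 2 * n)) (W.G 0 s)
      (W.mono 0 (s - 2 * n) 0 s le_rfl (by omega) hm)
      (fun x => nsq (fun z => act (W.a 0 x) (W.mean (s - 2 * n) n v x) z -
        W.mean (s - 2 * n) n v x z)) γ]
    refine avg_congr _ _ _ _ fun δ _ => ?_
    unfold Win.E
    refine avg_congr _ _ _ _ fun δ' hδ' => ?_
    rw [W.mean_fix (s - 2 * n) (s - 2 * n) n le_rfl v (γ * δ) δ' hδ']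
  rw [hL]
  have hle : avg (W.G 0 s) (fun x => nsq (fun z => act (W.a 0 x) (W.mean (s - 2 * n) n v x) z -
        W.mean (s - 2 * n) n v x z)) γ ≤
      avg (W.G 0 s) (fun x =>
        2 * nsq (fun z => (∑ i ∈ Finset.range n, act (W.a 0 x) (act (W.a (s - 2 * n + i) x) v) z) / n -
          (∑ i ∈ Finset.range n, act (W.a (s - n + i) x) v z) / n) +
        2 * nsq (fun z => (∑ i ∈ Finset.range n, act (W.a (s - 2 * n + i) x) v z) / n -
          (∑ i ∈ Finset.range n, act (W.a (s - n + i) x) v z) / n)) γ := by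
    refine avg_le _ _ _ _ fun δ _ => ?_
    unfold nsq
    rw [Finset.mul_sum, Finset.mul_sum, ← Finset.sum_add_distrib]
    refine Finset.sum_le_sum fun z _ => ?_
    have e1 : act (W.a 0 (γ * δ)) (W.mean (s - 2 * n) n v (γ * δ)) z =
        (∑ i ∈ Finset.range n,
          act (W.a 0 (γ * δ)) (act (W.a (s - 2 * n + i) (γ * δ)) v) z) / n := rfl
    have e2 : W.mean (s - 2 * n) n v (γ * δ) z =
        (∑ i ∈ Finset.range n, act (W.a (s - 2 * n + i) (γ * δ)) v z) / n := rfl
    beta_reduce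
    rw [e1, e2]
    set P := (∑ i ∈ Finset.range n,
          act (W.a 0 (γ * δ)) (act (W.a (s - 2 * n + i) (γ * δ)) v) z) / (n : ℝ)
    set Q := (∑ i ∈ Finset.range n, act (W.a (s - 2 * n + i) (γ * δ)) v z) / (n : ℝ)
    set R := (∑ i ∈ Finset.range n, act (W.a (s - n + i) (γ * δ)) v z) / (n : ℝ)
    nlinarith [sq_nonneg ((P - R) + (Q - R))]
  refine hle.trans ?_
  rw [avg_add, avg_mul, avg_mul, d1, d2]
  have h3 : 2 * (2 * (nsq v - g) / n) + 2 * (2 * (nsq v - g) / n) ≤ 16 / n * W.E s v γ := by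
    have h4 : 2 * (2 * (nsq v - g) / (n : ℝ)) + 2 * (2 * (nsq v - g) / n) =
        4 * (2 * (nsq v - g)) / n := by ring
    have h5 : 16 / (n : ℝ) * W.E s v γ = 4 * (4 * W.E s v γ) / n := by ring
    rw [h4, h5]
    gcongr
  exact h3

end Pool.Agent.PWL
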