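import Pool.Agent.PWL.Stage0
import Pool.Agent.PWL.Stage1
import Pool.Agent.PWL.Stage2

/-!
# PWL: one stage of the improvement of an almost invariant function (all parts)
-/
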