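import Pool.Agent.PWL.Win

/-!
# PWL: one stage of the improvement of an almost invariant function
-/

namespace Pool.Agent.PWL

/-- The permutation `h` acting on functions. -/
def act {d : ℕ} (h : Equiv.Perm (Fin d)) (v : Fin d → ℝ) : Fin d → ℝ := fun z => v (h⁻¹ z)

/-- The square of the norm. -/
def nsq {d : ℕ} (v : Fin d → ℝ) : ℝ := ∑ z, v z ^ 2

variable {Γ : Type*} [Group Γ] [Fintype Γ] {d m : ℕ}

/-- Mean displacement of `v` under the curves of the handles `0, ..., s - 1`. -/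
noncomputable def Win.E (W : Win Γ (Equiv.Perm (Fin d)) m) (s : ℕ) (v : Fin d → ℝ) (γ : Γ) : ℝ :=
  avg (W.G 0 s) (fun x => nsq (fun z => act (W.a 0 x) v z - v z)) γ

/-- The mean of `v` over the curves `a_j`, `j = p, ..., p + n - 1`. -/
noncomputable def Win.mean (W : Win Γ (Equiv.Perm (Fin d)) m) (p n : ℕ) (v : Fin d → ℝ) (x : Γ) :
    Fin d → ℝ := fun z => (∑ j ∈ Finset.range n, act (W.a (p + j) x) v z) / n

/-- Any curve `a_j`, `j < s`, displaces like `a_0`. -/
theorem Win.E_eq (W : Win Γ (Equiv.Perm (Fin d)) m) (s j : ℕ) (hj : j < s) (hs : s ≤ m)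
    (v : Fin d → ℝ) (γ : Γ) :
    avg (W.G 0 s) (fun x => nsq (fun z => act (W.a j x) v z - v z)) γ = W.E s v γ := by
  obtain ⟨τ, hτ, h⟩ := W.bring 0 j (Nat.zero_le _) (by omega)
  have hτ' : τ ∈ W.G 0 s := W.mono 0 (j + 1) 0 s le_rfl hj hs hτ
  unfold Win.E
  rw [← avg_shift (W.G 0 s) (fun x => nsq (fun z => act (W.a 0 x) v z - v z)) γ τ hτ']
  simp only [h]

/-- The mean depends only on the handles used. -/
theorem Win.mean_fix (W : Win Γ (Equiv.Perm (Fin d)) m) (s p n : ℕ) (hs : s ≤ p)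
    (v : Fin d → ℝ) (x δ : Γ) (hδ : δ ∈ W.G 0 s) : W.mean p n v (x * δ) = W.mean p n v x := by
  funext z
  unfold Win.mean
  congr 1
  refine Finset.sum_congr rfl fun j _ => ?_
  rw [(W.fix 0 s (p + j) x δ hδ (Or.inr (by omega))).1]

/-- The sum of the values is preserved. -/
theorem Win.mean_sum (W : Win Γ (Equiv.Perm (Fin d)) m) (p n : ℕ) (hn : 0 < n) (v : Fin d → ℝ)
    (x : Γ) : ∑ z, W.mean p n v x z = ∑ z, v z := by
  unfold Win.mean
  rw [← Finset.sum_div, Finset.sum_comm]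
  have h : ∀ j ∈ Finset.range n, ∑ z, act (W.a (p + j) x) v z = ∑ z, v z := by
    intro j _
    unfold act
    exact Equiv.sum_comp (W.a (p + j) x)⁻¹ v
  rw [Finset.sum_congr rfl h, Finset.sum_const, Finset.card_range, nsmul_eq_mul]
  have hn' : (n : ℝ) ≠ 0 := by exact_mod_cast hn.ne'
  field_simp

end Pool.Agent.PWL
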