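import Pool.Agent.PWL.Stage1
import Pool.Agent.PWL.Stage2

/-!
# PWL: many stages
-/

namespace Pool.Agent.PWL

variable {Γ : Type*} [Group Γ] [Fintype Γ] {d m : ℕ}

private theorem nd_add {d : ℕ} (u v w : Fin d → ℝ) :
    √(nsq (fun z => u z - w z)) ≤ √(nsq (fun z => u z - v z)) + √(nsq (fun z => v z - w z)) := by
  have h : ∀ f : Fin d → ℝ, √(nsq f) = ‖(WithLp.toLp 2 f : EuclideanSpace ℝ (Fin d))‖ := by
    intro f
    rw [EuclideanSpace.norm_eq]
    unfold nsq
    congr 1
    refine Finset.sum_congr rfl fun z _ => ?_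
    rw [Real.norm_eq_abs, sq_abs]
  rw [h, h, h]
  have e : (WithLp.toLp 2 (fun z => u z - w z) : EuclideanSpace ℝ (Fin d)) =
      WithLp.toLp 2 (fun z => u z - v z) + WithLp.toLp 2 (fun z => v z - w z) := by
    ext z
    simp
  rw [e]
  exact norm_add_le _ _

private theorem avg_sqrt (G : Subgroup Γ) (F : Γ → ℝ) (hF : ∀ x, 0 ≤ F x) (γ : Γ) :
    avg G (fun x => √(F x)) γ ≤ √(avg G F γ) := by
  apply Real.le_sqrt_of_sq_le
  refine (avg_sq G (fun x => √(F x)) γ).trans (le_of_eq ?_)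
  congr 1
  funext x
  exact Real.sq_sqrt (hF x)

private theorem nsq_nonneg {d : ℕ} (v : Fin d → ℝ) : 0 ≤ nsq v :=
  Finset.sum_nonneg fun _ _ => sq_nonneg _

private theorem E_nonneg (W : Win Γ (Equiv.Perm (Fin d)) m) (s : ℕ) (v : Fin d → ℝ) (x : Γ) :
    0 ≤ W.E s v x := avg_nonneg _ _ _ fun _ _ => nsq_nonneg _

/-- `T` stages with 128 handles each: from a small displacement one gets a tiny one, near `v`.
(`nd v w` below is the distance.) -/
theorem Win.stages (W : Win Γ (Equiv.Perm (Fin d)) m) (T s : ℕ) (hs : 128 * T < s) (hm : s ≤ m)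
    (v : Fin d → ℝ) (γ : Γ) :
    ∃ V : Γ → Fin d → ℝ, (∀ x, ∀ δ ∈ W.G 0 (s - 128 * T), V (x * δ) = V x) ∧
      (∀ x, ∑ z, V x z = ∑ z, v z) ∧
      avg (W.G 0 s) (fun x => W.E (s - 128 * T) (V x) x) γ ≤ W.E s v γ / 4 ^ T ∧
      avg (W.G 0 s) (fun x => √(nsq (fun z => V x z - v z))) γ ≤
        (2 - 2 / 2 ^ T) * √(W.E s v γ) := by
  induction T with
  | zero =>
    refine ⟨fun _ => v, fun _ _ _ => rfl, fun _ => rfl, ?_, ?_⟩
    · rw [Nat.mul_zero, Nat.sub_zero, pow_zero, div_one]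
      have := avg_avg (W.G 0 s) (W.G 0 s) le_rfl
        (fun x => nsq (fun z => act (W.a 0 x) v z - v z)) γ
      exact le_of_eq this
    · have : (fun x : Γ => √(nsq (fun z => v z - v z))) = fun _ => (0 : ℝ) := by
        funext x
        unfold nsq
        simp
      rw [this, avg_const]
      norm_num
  | succ T ih =>
    obtain ⟨V, h1, h2, h3, h4⟩ := ih (by omega)
    set s' := s - 128 * T with hs'
    have hs'' : s - 128 * (T + 1) = s' - 2 * 64 := by omega
    have hle : W.G 0 s' ≤ W.G 0 s := W.mono 0 s' 0 s le_rfl (by omega) hm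
    have hlt : 2 * 64 < s' := by omega
    have hm' : s' ≤ m := by omega
    have hfix : ∀ x, ∀ δ ∈ W.G 0 s',
        W.mean (s' - 2 * 64) 64 (V (x * δ)) (x * δ) = W.mean (s' - 2 * 64) 64 (V x) (x * δ) := by
      intro x δ hδ
      rw [h1 x δ hδ]
    rw [hs'']
    refine ⟨fun x => W.mean (s' - 2 * 64) 64 (V x) x, ?_, ?_, ?_, ?_⟩
    · intro x δ hδ
      have hδ' : δ ∈ W.G 0 s' := W.mono 0 (s' - 2 * 64) 0 s' le_rfl (by omega) hm' hδ
      beta_reduce
      rw [h1 x δ hδ']
      exact W.mean_fix (s' - 2 * 64) (s' - 2 * 64) 64 le_rfl (V x) x δ hδ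
    · intro x
      rw [W.mean_sum _ _ (by norm_num), h2]
    · rw [← avg_avg (W.G 0 s') (W.G 0 s) hle]
      have h5 : avg (W.G 0 s) (fun x => avg (W.G 0 s')
          (fun x => W.E (s' - 2 * 64) (W.mean (s' - 2 * 64) 64 (V x) x) x) x) γ ≤
          avg (W.G 0 s) (fun x => (1 / 4 : ℝ) * W.E s' (V x) x) γ := by
        refine avg_le _ _ _ _ fun δ _ => ?_
        have h6 := W.stage2 s' 64 (by norm_num) hlt hm' (V (γ * δ)) (γ * δ)
        have h7 : avg (W.G 0 s')
            (fun x => W.E (s' - 2 * 64) (W.mean (s' - 2 * 64) 64 (V x) x) x) (γ * δ) =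
            avg (W.G 0 s') (fun x => W.E (s' - 2 * 64)
              (W.mean (s' - 2 * 64) 64 (V (γ * δ)) x) x) (γ * δ) := by
          refine avg_congr _ _ _ _ fun δ' hδ' => ?_
          rw [hfix (γ * δ) δ' hδ']
        rw [h7]
        refine h6.trans (le_of_eq ?_)
        norm_num
      refine h5.trans ?_
      rw [avg_mul]
      calc (1 / 4 : ℝ) * avg (W.G 0 s) (fun x => W.E s' (V x) x) γ ≤
          1 / 4 * (W.E s v γ / 4 ^ T) := by gcongr
        _ = W.E s v γ / 4 ^ (T + 1) := by rw [pow_succ]; ring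
    · have h5 : avg (W.G 0 s) (fun x => √(nsq (fun z =>
          W.mean (s' - 2 * 64) 64 (V x) x z - v z))) γ ≤
          avg (W.G 0 s) (fun x => √(nsq (fun z => W.mean (s' - 2 * 64) 64 (V x) x z - V x z)) +
            √(nsq (fun z => V x z - v z))) γ :=
        avg_le _ _ _ _ fun δ _ => nd_add _ _ _
      refine h5.trans ?_
      rw [avg_add]
      have h6 : avg (W.G 0 s)
          (fun x => √(nsq (fun z => W.mean (s' - 2 * 64) 64 (V x) x z - V x z))) γ ≤
          √(W.E s v γ / 4 ^ T) := by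
        rw [← avg_avg (W.G 0 s') (W.G 0 s) hle]
        have h7 : avg (W.G 0 s) (fun x => avg (W.G 0 s')
            (fun x => √(nsq (fun z => W.mean (s' - 2 * 64) 64 (V x) x z - V x z))) x) γ ≤
            avg (W.G 0 s) (fun x => √(W.E s' (V x) x)) γ := by
          refine avg_le _ _ _ _ fun δ _ => ?_
          have h8 : avg (W.G 0 s')
              (fun x => √(nsq (fun z => W.mean (s' - 2 * 64) 64 (V x) x z - V x z))) (γ * δ) =
              avg (W.G 0 s') (fun x => √(nsq (fun z =>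
                W.mean (s' - 2 * 64) 64 (V (γ * δ)) x z - V (γ * δ) z))) (γ * δ) := by
            refine avg_congr _ _ _ _ fun δ' hδ' => ?_
            rw [h1 (γ * δ) δ' hδ']
          rw [h8]
          have h10 := W.stage1 s' 64 (by norm_num) hlt hm' (V (γ * δ)) (γ * δ)
          have h11 := avg_sqrt (W.G 0 s') (fun x => nsq (fun z =>
                W.mean (s' - 2 * 64) 64 (V (γ * δ)) x z - V (γ * δ) z)) (fun x => nsq_nonneg _) (γ * δ)
          exact h11.trans (Real.sqrt_le_sqrt h10)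
        have h12 := avg_sqrt (W.G 0 s) (fun x => W.E s' (V x) x)
          (fun x => E_nonneg W s' (V x) x) γ
        exact h7.trans (h12.trans (Real.sqrt_le_sqrt h3))
      have h9 : √(W.E s v γ / 4 ^ T) = √(W.E s v γ) / 2 ^ T := by
        have e4 : (4 : ℝ) ^ T = (2 ^ T) ^ 2 := by
          rw [← pow_mul, mul_comm T 2, pow_mul]
          norm_num
        rw [e4, Real.sqrt_div' _ (by positivity), Real.sqrt_sq (by positivity)]
      rw [h9] at h6
      calc _ ≤ √(W.E s v γ) / 2 ^ T + (2 - 2 / 2 ^ T) * √(W.E s v γ) := add_le_add h6 h4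
        _ = (2 - 2 / 2 ^ (T + 1)) * √(W.E s v γ) := by
          rw [pow_succ]
          field_simp
          ring

end Pool.Agent.PWL
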