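import Pool.Agent.PWL.Win

/-!
# PWL: a simple curve is not too often in a proper subgroup
-/

namespace Pool.Agent.PWL

variable {Γ Q : Type*} [Group Γ] [Fintype Γ] [Group Q] {m : ℕ}

private theorem ite_le_one (p : Prop) [Decidable p] : (if p then (1 : ℝ) else 0) ≤ 1 := by
  split_ifs <;> norm_num

private theorem inv_mul_g (g u : Q) : (g * u⁻¹)⁻¹ = u * g⁻¹ := by
  rw [mul_inv_rev, inv_inv]

open Classical in
/-- If the interval is not contained in `K`, then every right coset of `K` has mass at most 3/4.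
(`x ∈ K g` is `x * g⁻¹ ∈ K`.) -/
theorem Win.mass (W : Win Γ Q m) (q r : ℕ) (hqr : q < r) (hr : r ≤ m) (K : Subgroup Q) (g : Q)
    (γ : Γ) (h : ¬ W.R q r γ ≤ K) :
    avg (W.G q r) (fun x => if W.a q x * g⁻¹ ∈ K then 1 else 0) γ ≤ 3 / 4 := by
  induction r, (Nat.succ_le_of_lt hqr) using Nat.le_induction generalizing g γ with
  | base =>
    obtain ⟨τ1, h1, e1⟩ := W.one1 q (by omega)
    obtain ⟨τ2, h2, e2⟩ := W.one2 q (by omega)
    set F : Γ → ℝ := fun x => if W.a q x * g⁻¹ ∈ K then 1 else 0 with hF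
    have s1 : avg (W.G q (q + 1)) (fun x => F (x * τ1)) γ = avg (W.G q (q + 1)) F γ :=
      avg_shift _ F γ τ1 h1
    have s2 : avg (W.G q (q + 1)) (fun x => F (x * τ2)) γ = avg (W.G q (q + 1)) F γ :=
      avg_shift _ F γ τ2 h2
    have hsum : avg (W.G q (q + 1)) (fun x => F x + F (x * τ1) + F (x * τ2)) γ ≤ 2 := by
      rw [← avg_const (W.G q (q + 1)) 2 γ]
      refine avg_le _ _ _ γ fun δ hδ => ?_
      have hR : W.R q (q + 1) (γ * δ) = W.R q (q + 1) γ := W.R_inv q (q + 1) hr γ δ hδ
      show F (γ * δ) + F (γ * δ * τ1) + F (γ * δ * τ2) ≤ 2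
      simp only [hF, e1, e2]
      by_cases c1 : W.a q (γ * δ) * g⁻¹ ∈ K
      · by_cases c2 : W.b q (γ * δ) * g⁻¹ ∈ K
        · by_cases c3 : W.a q (γ * δ) * W.b q (γ * δ) * g⁻¹ ∈ K
          · exfalso
            apply h
            rw [← hR, W.R_le_iff]
            have k1 : W.a q (γ * δ) ∈ K := by
              have := K.mul_mem c3 (K.inv_mem c2)
              simpa [mul_assoc] using this
            have k2 : g ∈ K := by
              have := K.mul_mem (K.inv_mem c1) k1
              simpa [mul_assoc] using this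
            have k3 : W.b q (γ * δ) ∈ K := by
              have := K.mul_mem c2 k2
              simpa [mul_assoc] using this
            intro j hj hj'
            have : j = q := by omega
            subst this
            exact ⟨k1, k3⟩
          · rw [if_pos c1, if_pos c2, if_neg c3]
            norm_num
        · rw [if_pos c1, if_neg c2]
          have := ite_le_one (W.a q (γ * δ) * W.b q (γ * δ) * g⁻¹ ∈ K)
          linarith
      · rw [if_neg c1]
        have := ite_le_one (W.a q (γ * δ) * W.b q (γ * δ) * g⁻¹ ∈ K)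
        have := ite_le_one (W.b q (γ * δ) * g⁻¹ ∈ K)
        linarith
    have e3 : avg (W.G q (q + 1)) (fun x => F x + F (x * τ1) + F (x * τ2)) γ =
        avg (W.G q (q + 1)) F γ + avg (W.G q (q + 1)) (fun x => F (x * τ1)) γ +
          avg (W.G q (q + 1)) (fun x => F (x * τ2)) γ := by
      rw [avg_add (W.G q (q + 1)) (fun x => F x + F (x * τ1)) (fun x => F (x * τ2)) γ,
        avg_add (W.G q (q + 1)) F (fun x => F (x * τ1)) γ]
    rw [e3, s1, s2] at hsum
    linarith
  | succ r hqr' ih =>
    have hqr2 : q < r := hqr'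
    have hr2 : r < m := by omega
    obtain ⟨τ1, h1, e1⟩ := W.mv1 q r hqr2 hr2
    obtain ⟨τ2, h2, e2⟩ := W.mv2 q r hqr2 hr2
    obtain ⟨τ3, h3, e3⟩ := W.mv3 q r hqr2 hr2
    set F : Γ → ℝ := fun x => if W.a q x * g⁻¹ ∈ K then 1 else 0 with hF
    have hGG : W.G q r ≤ W.G q (r + 1) := W.mono q r q (r + 1) le_rfl (by omega) hr
    have s1 : avg (W.G q (r + 1)) (fun x => F (x * τ1)) γ = avg (W.G q (r + 1)) F γ :=
      avg_shift _ F γ τ1 h1
    have s2 : avg (W.G q (r + 1)) (fun x => F (x * τ2)) γ = avg (W.G q (r + 1)) F γ :=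
      avg_shift _ F γ τ2 h2
    have s3 : avg (W.G q (r + 1)) (fun x => F (x * τ3)) γ = avg (W.G q (r + 1)) F γ :=
      avg_shift _ F γ τ3 h3
    set S : Γ → ℝ := fun x => F x + F (x * τ1) + F (x * τ2) + F (x * τ3) with hS
    have split : ∀ (G : Subgroup Γ) (x : Γ), avg G S x = avg G F x + avg G (fun y => F (y * τ1)) x +
        avg G (fun y => F (y * τ2)) x + avg G (fun y => F (y * τ3)) x := by
      intro G x
      rw [hS, avg_add G (fun x => F x + F (x * τ1) + F (x * τ2)) (fun x => F (x * τ3)) x,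
        avg_add G (fun x => F x + F (x * τ1)) (fun x => F (x * τ2)) x,
        avg_add G F (fun x => F (x * τ1)) x]
    have inner : ∀ δ ∈ W.G q (r + 1), avg (W.G q r) S (γ * δ) ≤ 3 := by
      intro δ hδ
      set x := γ * δ with hx
      have hR : W.R q (r + 1) x = W.R q (r + 1) γ := W.R_inv q (r + 1) hr γ δ hδ
      have hfix : ∀ ε ∈ W.G q r, W.a r (x * ε) = W.a r x ∧ W.b r (x * ε) = W.b r x :=
        fun ε hε => W.fix q r r x ε hε (Or.inr le_rfl)
      by_cases hc : W.R q r x ≤ K
      · rw [← avg_const (W.G q r) 3 x]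
        refine avg_le _ _ _ x fun ε hε => ?_
        have ha : W.a q (x * ε) ∈ K := hc (W.a_mem q r hqr2 (by omega) x ε hε)
        show F (x * ε) + F (x * ε * τ1) + F (x * ε * τ2) + F (x * ε * τ3) ≤ 3
        have o0 : F (x * ε) ≤ 1 := ite_le_one _
        have o1 : F (x * ε * τ1) ≤ 1 := ite_le_one _
        have o2 : F (x * ε * τ2) ≤ 1 := ite_le_one _
        have o3 : F (x * ε * τ3) ≤ 1 := ite_le_one _
        by_cases c0 : W.a q (x * ε) * g⁻¹ ∈ K
        · by_cases c1 : W.a q (x * ε * τ1) * g⁻¹ ∈ K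
          · by_cases c2 : W.a q (x * ε * τ2) * g⁻¹ ∈ K
            · exfalso
              rw [e1, (hfix ε hε).1] at c1
              rw [e2, (hfix ε hε).2] at c2
              have k0 : g⁻¹ ∈ K := (K.mul_mem_cancel_left ha).1 c0
              have k1 : W.a r x ∈ K := by
                have := K.mul_mem (K.mul_mem (K.inv_mem ha) c1) (K.inv_mem k0)
                simpa [mul_assoc] using this
              have k2 : W.b r x ∈ K := by
                have := K.mul_mem (K.mul_mem (K.inv_mem ha) c2) (K.inv_mem k0)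
                simpa [mul_assoc] using this
              apply h
              rw [← hR, W.R_le_iff]
              intro j hj hj'
              rcases Nat.lt_succ_iff_lt_or_eq.1 hj' with hj2 | rfl
              · exact (W.R_le_iff q r x K).1 hc j hj hj2
              · exact ⟨k1, k2⟩
            · have : F (x * ε * τ2) = 0 := if_neg c2
              linarith
          · have : F (x * ε * τ1) = 0 := if_neg c1
            linarith
        · have : F (x * ε) = 0 := if_neg c0
          linarith
      · have ihx : ∀ g' : Q, avg (W.G q r) (fun y => if W.a q y * g'⁻¹ ∈ K then 1 else 0) x ≤ 3 / 4 :=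
          fun g' => ih hqr2 (by omega) g' x hc
        have i0 := ihx g
        have i1 : avg (W.G q r) (fun y => F (y * τ1)) x ≤ 3 / 4 := by
          refine le_trans (le_of_eq (avg_congr _ _ _ x fun ε hε => ?_)) (ihx (g * (W.a r x)⁻¹))
          show (if W.a q (x * ε * τ1) * g⁻¹ ∈ K then (1 : ℝ) else 0) =
            if W.a q (x * ε) * (g * (W.a r x)⁻¹)⁻¹ ∈ K then 1 else 0
          rw [e1, (hfix ε hε).1, mul_inv_rev, inv_inv, mul_assoc]
        have i2 : avg (W.G q r) (fun y => F (y * τ2)) x ≤ 3 / 4 := by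
          refine le_trans (le_of_eq (avg_congr _ _ _ x fun ε hε => ?_)) (ihx (g * (W.b r x)⁻¹))
          show (if W.a q (x * ε * τ2) * g⁻¹ ∈ K then (1 : ℝ) else 0) =
            if W.a q (x * ε) * (g * (W.b r x)⁻¹)⁻¹ ∈ K then 1 else 0
          rw [e2, (hfix ε hε).2, mul_inv_rev, inv_inv, mul_assoc]
        have i3 : avg (W.G q r) (fun y => F (y * τ3)) x ≤ 3 / 4 := by
          refine le_trans (le_of_eq (avg_congr _ _ _ x fun ε hε => ?_))
            (ihx (g * (W.a r x * W.b r x)⁻¹))
          show (if W.a q (x * ε * τ3) * g⁻¹ ∈ K then (1 : ℝ) else 0) =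
            if W.a q (x * ε) * (g * (W.a r x * W.b r x)⁻¹)⁻¹ ∈ K then 1 else 0
          rw [e3, (hfix ε hε).1, (hfix ε hε).2, inv_mul_g, mul_assoc]
        rw [split]
        have i0' : avg (W.G q r) F x ≤ 3 / 4 := i0
        linarith
    have tot : avg (W.G q (r + 1)) S γ ≤ 3 := by
      rw [← avg_avg (W.G q r) (W.G q (r + 1)) hGG S γ, ← avg_const (W.G q (r + 1)) 3 γ]
      exact avg_le _ _ _ γ inner
    rw [split, s1, s2, s3] at tot
    have : avg (W.G q (r + 1)) F γ ≤ 3 / 4 := by linarith
    exact this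

end Pool.Agent.PWL
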