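import Pool.Agent.PWL.Avg

/-!
# PWL: intervals of handles, abstractly
-/

namespace Pool.Agent.PWL

/-- A finite group `Γ` with subgroups `G q r` (supported on the handles `q, ..., r - 1`) and
values `a j`, `b j` of the curves of the handle `j` in `Q`. -/
structure Win (Γ Q : Type*) [Group Γ] [Group Q] (m : ℕ) where
  G : ℕ → ℕ → Subgroup Γ
  a : ℕ → Γ → Q
  b : ℕ → Γ → Q
  top : G 0 m = ⊤
  mono : ∀ q r q' r', q' ≤ q → r ≤ r' → r' ≤ m → G q r ≤ G q' r'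
  fix : ∀ q r j (γ δ : Γ), δ ∈ G q r → (j < q ∨ r ≤ j) → a j (γ * δ) = a j γ ∧ b j (γ * δ) = b j γ
  gen : ∀ q r (γ δ : Γ) (K : Subgroup Q), r ≤ m → δ ∈ G q r →
    (∀ j, q ≤ j → j < r → a j γ ∈ K ∧ b j γ ∈ K) →
    ∀ j, q ≤ j → j < r → a j (γ * δ) ∈ K ∧ b j (γ * δ) ∈ K
  one1 : ∀ q, q < m → ∃ τ ∈ G q (q + 1), ∀ γ, a q (γ * τ) = b q γ
  one2 : ∀ q, q < m → ∃ τ ∈ G q (q + 1), ∀ γ, a q (γ * τ) = a q γ * b q γ
  mv1 : ∀ q r, q < r → r < m → ∃ τ ∈ G q (r + 1), ∀ γ, a q (γ * τ) = a q γ * a r γ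
  mv2 : ∀ q r, q < r → r < m → ∃ τ ∈ G q (r + 1), ∀ γ, a q (γ * τ) = a q γ * b r γ
  mv3 : ∀ q r, q < r → r < m → ∃ τ ∈ G q (r + 1), ∀ γ, a q (γ * τ) = a q γ * (a r γ * b r γ)
  bring : ∀ q r, q ≤ r → r < m → ∃ τ ∈ G q (r + 1), ∀ γ, a q (γ * τ) = a r γ
  block : ∀ q i, q + i ≤ m → ∃ τ : Γ, ∀ γ, ∀ j < i,
    a j (γ * τ) = a (q + j) γ ∧ b j (γ * τ) = b (q + j) γ

variable {Γ Q : Type*} [Group Γ] [Group Q] {m : ℕ}

/-- The group generated by the values of the handles `q, ..., r - 1`. -/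
def Win.R (W : Win Γ Q m) (q r : ℕ) (γ : Γ) : Subgroup Q :=
  Subgroup.closure {x | ∃ j, q ≤ j ∧ j < r ∧ (x = W.a j γ ∨ x = W.b j γ)}

theorem Win.R_le_iff (W : Win Γ Q m) (q r : ℕ) (γ : Γ) (K : Subgroup Q) :
    W.R q r γ ≤ K ↔ ∀ j, q ≤ j → j < r → W.a j γ ∈ K ∧ W.b j γ ∈ K := by
  unfold Win.R
  rw [Subgroup.closure_le]
  constructor
  · intro h j hj hj'
    exact ⟨h ⟨j, hj, hj', Or.inl rfl⟩, h ⟨j, hj, hj', Or.inr rfl⟩⟩
  · rintro h x ⟨j, hj, hj', hx⟩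
    rcases hx with rfl | rfl
    · exact (h j hj hj').1
    · exact (h j hj hj').2

theorem Win.R_mono (W : Win Γ Q m) {q r q' r' : ℕ} (h : q' ≤ q) (h' : r ≤ r') (γ : Γ) :
    W.R q r γ ≤ W.R q' r' γ := by
  rw [W.R_le_iff]
  intro j hj hj'
  exact (W.R_le_iff q' r' γ _).1 le_rfl j (h.trans hj) (lt_of_lt_of_le hj' h')

/-- Invariant under the group of the interval. -/
theorem Win.R_inv (W : Win Γ Q m) (q r : ℕ) (hr : r ≤ m) (γ δ : Γ) (h : δ ∈ W.G q r) :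
    W.R q r (γ * δ) = W.R q r γ := by
  have key : ∀ γ δ : Γ, δ ∈ W.G q r → W.R q r (γ * δ) ≤ W.R q r γ := by
    intro γ δ h
    rw [W.R_le_iff]
    exact W.gen q r γ δ _ hr h ((W.R_le_iff q r γ _).1 le_rfl)
  apply le_antisymm (key γ δ h)
  have h2 := key (γ * δ) δ⁻¹ (inv_mem h)
  rwa [mul_inv_cancel_right] at h2

/-- Invariant under the groups of disjoint intervals. -/
theorem Win.R_fix (W : Win Γ Q m) (q r q' r' : ℕ) (h : r ≤ q' ∨ r' ≤ q) (γ δ : Γ)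
    (hδ : δ ∈ W.G q' r') : W.R q r (γ * δ) = W.R q r γ := by
  have hj : ∀ j, q ≤ j → j < r → W.a j (γ * δ) = W.a j γ ∧ W.b j (γ * δ) = W.b j γ := by
    intro j hj hj'
    apply W.fix q' r' j γ δ hδ
    omega
  apply le_antisymm
  · rw [W.R_le_iff]
    intro j h1 h2
    rw [(hj j h1 h2).1, (hj j h1 h2).2]
    exact (W.R_le_iff q r γ _).1 le_rfl j h1 h2
  · rw [W.R_le_iff]
    intro j h1 h2
    rw [← (hj j h1 h2).1, ← (hj j h1 h2).2]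
    exact (W.R_le_iff q r (γ * δ) _).1 le_rfl j h1 h2

/-- The group of all handles is constant. -/
theorem Win.R_top (W : Win Γ Q m) (γ : Γ) : W.R 0 m γ = W.R 0 m 1 := by
  have h := W.R_inv 0 m le_rfl 1 γ (by rw [W.top]; exact Subgroup.mem_top γ)
  rwa [one_mul] at h

/-- The values of the interval lie in its group. -/
theorem Win.a_mem (W : Win Γ Q m) (q r : ℕ) (hqr : q < r) (hr : r ≤ m) (γ δ : Γ)
    (h : δ ∈ W.G q r) : W.a q (γ * δ) ∈ W.R q r γ := by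
  exact (W.gen q r γ δ _ hr h ((W.R_le_iff q r γ _).1 le_rfl) q le_rfl hqr).1

theorem Win.R_block (W : Win Γ Q m) (q i : ℕ) (h : q + i ≤ m) : ∃ τ : Γ, ∀ γ, 
    W.R 0 i (γ * τ) = W.R q (q + i) γ := by
  obtain ⟨τ, hτ⟩ := W.block q i h
  refine ⟨τ, fun γ => ?_⟩
  apply le_antisymm
  · rw [W.R_le_iff]
    intro j _ h2
    rw [(hτ γ j h2).1, (hτ γ j h2).2]
    exact (W.R_le_iff q (q + i) γ _).1 le_rfl (q + j) (by omega) (by omega)
  · rw [W.R_le_iff]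
    intro j h1 h2
    have h3 := hτ γ (j - q) (by omega)
    have h4 : q + (j - q) = j := by omega
    rw [h4] at h3
    rw [← h3.1, ← h3.2]
    exact (W.R_le_iff 0 i (γ * τ) _).1 le_rfl (j - q) (by omega) (by omega)

end Pool.Agent.PWL
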